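import Mathlib

set_option autoImplicit false

namespace Pool.Agent.H865R2.CpBeta

open Set Topology Filter Cardinal

/-- A well order in which every set of size at most `ℵ₁` has a strict upper bound. -/
structure Big (W : Type) [LinearOrder W] : Prop where
  wf : WellFoundedLT W
  bdd : ∀ s : Set W, #s ≤ ℵ₁ → ∃ b, ∀ x ∈ s, x < b

theorem exists_big : ∃ (W : Type) (_ : LinearOrder W), Big W := by
  let W : Type := (Order.succ ℵ₁ : Cardinal.{0}).ord.ToType
  refine ⟨W, inferInstance, inferInstance, ?_⟩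
  intro s hs
  by_contra hcon
  push Not at hcon
  have hcof : IsCofinal s := fun b => hcon b
  have h1 : Order.cof W ≤ #s := Order.cof_le hcof
  have hreg : (Order.succ ℵ₁ : Cardinal.{0}).IsRegular :=
    Cardinal.isRegular_succ (Cardinal.aleph0_le_aleph 1)
  have h2 : Order.cof W = Order.succ ℵ₁ := by
    rw [Ordinal.cof_toType]
    exact hreg.cof_ord
  rw [h2] at h1
  exact absurd (h1.trans hs) (not_le.2 (Order.lt_succ ℵ₁))

section

variable {W : Type} [LinearOrder W]

theorem Big.bdd_countable (hW : Big W) (s : Set W) (hs : s.Countable) : ∃ b, ∀ x ∈ s, x < b :=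
  hW.bdd s ((Cardinal.mk_le_aleph0_iff.2 hs.to_subtype).trans (Cardinal.aleph0_le_aleph 1))

/-- pressing down -/
theorem press (hW : Big W) (F : W → Set (Ultrafilter W)) (hF : ∀ i, (F i).Finite) :
    ∃ γ : W, ∀ δ : W, ∃ i, δ < i ∧ ∀ u ∈ F i, (∃ l < i, Iic l ∈ u) → Iic γ ∈ u := by
  have := hW.wf
  by_contra hcon
  push Not at hcon
  choose d hd using hcon
  obtain ⟨w0, -⟩ := hW.bdd ∅ (by simp)
  have hmax : ∀ a b : W, ∃ c, a < c ∧ b < c := by
    intro a b
    obtain ⟨c, hc⟩ := hW.bdd_countable {a, b} (by simp)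
    exact ⟨c, hc a (by simp), hc b (by simp)⟩
  choose m hm1 hm2 using hmax
  let δ : ℕ → W := fun n => Nat.rec w0 (fun _ x => m x (d x)) n
  have hδS : ∀ n, δ (n + 1) = m (δ n) (d (δ n)) := fun _ => rfl
  have hδm : StrictMono δ := strictMono_nat_of_lt_succ fun n => by
    rw [hδS]; exact hm1 _ _
  have hne : {x : W | ∀ n, δ n < x}.Nonempty := by
    obtain ⟨b, hb⟩ := hW.bdd_countable (range δ) (countable_range δ)
    exact ⟨b, fun n => hb _ ⟨n, rfl⟩⟩
  obtain ⟨i, hi, hmin⟩ := WellFounded.has_min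
    (wellFounded_lt : WellFounded ((· < ·) : W → W → Prop)) _ hne
  have hlt : ∀ l < i, ∃ n, l ≤ δ n := by
    intro l hl
    by_contra hcon
    push Not at hcon
    exact hmin l hcon hl
  have h1 : ∀ n, ∃ u ∈ F i, (∃ l < i, Iic l ∈ u) ∧ Iic (δ n) ∉ u := by
    intro n
    refine hd (δ n) i ?_
    exact (hm2 _ _).trans (hi (n + 1))
  have h2 : ∀ u : Ultrafilter W, ∃ n, (∃ l < i, Iic l ∈ u) → Iic (δ n) ∈ u := by
    intro u
    by_cases h : ∃ l < i, Iic l ∈ u
    · obtain ⟨l, hl, hlu⟩ := h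
      obtain ⟨n, hn⟩ := hlt l hl
      exact ⟨n, fun _ => mem_of_superset hlu (Iic_subset_Iic.2 hn)⟩
    · exact ⟨0, fun h' => absurd h' h⟩
  choose N hN using h2
  obtain ⟨M, hM⟩ := ((hF i).image N).bddAbove
  obtain ⟨u, hu, hl, hnot⟩ := h1 M
  apply hnot
  exact mem_of_superset (hN u hl) (Iic_subset_Iic.2 (hδm.monotone (hM ⟨u, hu, rfl⟩)))

/-- The combinatorial core: for countably many assignments of finite sets of ultrafilters there is
a set `b` which agrees, on the `n`-th finite set of `i`, with the initial segment `Iic i`, for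
uncountably many `i`, for each `n`. -/
theorem exists_b (hW : Big W) (F : ℕ → W → Set (Ultrafilter W)) (hF : ∀ n i, (F n i).Finite) :
    ∃ b : Set W, ∀ n, ¬ {i | ∀ u ∈ F n i, (b ∈ u ↔ Iic i ∈ u)}.Countable := by
  classical
  have := hW.wf
  choose γ' hγ' using fun n => press hW (F n) (hF n)
  obtain ⟨γ, hγ⟩ := hW.bdd_countable (range γ') (countable_range γ')
  -- upper bounds
  have hh : ∀ i : W, ∃ h : W, i ≤ h ∧ ∀ n, ∀ u ∈ F n i, (∃ l, Iic l ∈ u) → Iic h ∈ u := by
    intro i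
    have h1 : ∀ u : Ultrafilter W, ∃ l, (∃ l, Iic l ∈ u) → Iic l ∈ u := by
      intro u
      by_cases h : ∃ l, Iic l ∈ u
      · obtain ⟨l, hl⟩ := h
        exact ⟨l, fun _ => hl⟩
      · exact ⟨i, fun h' => absurd h' h⟩
    choose L hL using h1
    obtain ⟨h, hb⟩ := hW.bdd_countable (insert i (L '' ⋃ n, F n i))
      (((countable_iUnion fun n => (hF n i).countable).image L).insert i)
    refine ⟨h, (hb i (mem_insert _ _)).le, fun n u hu hl => ?_⟩
    refine mem_of_superset (hL u hl) (Iic_subset_Iic.2 (hb _ ?_).le)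
    exact mem_insert_of_mem _ ⟨u, mem_iUnion.2 ⟨n, hu⟩, rfl⟩
  choose h hh1 hh2 using hh
  -- the index set
  obtain ⟨Ω, hΩ⟩ : ∃ Ω : Type, #Ω = ℵ₁ := ⟨(ℵ₁ : Cardinal.{0}).out, Cardinal.mk_out _⟩
  let I : Type := Ω × ℕ
  have hI : #I ≤ ℵ₁ := by
    rw [Cardinal.mk_prod, hΩ]
    simp
  let _ : LinearOrder I := linearOrderOfSTO (WellOrderingRel (α := I))
  have hIwf : WellFounded ((· < ·) : I → I → Prop) := WellOrderingRel.isWellOrder.wf
  have hnext : ∀ (A : Set W) (n : ℕ), ∃ i j : W, #A ≤ ℵ₁ → (j < i ∧ (∀ a ∈ A, h a ≤ j) ∧ γ < i ∧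
      ∀ u ∈ F n i, (∃ l < i, Iic l ∈ u) → Iic (γ' n) ∈ u) := by
    intro A n
    by_cases hA : #A ≤ ℵ₁
    · obtain ⟨j, hj⟩ := hW.bdd (h '' A) (Cardinal.mk_image_le.trans hA)
      obtain ⟨c, hc⟩ := hW.bdd_countable {j, γ} (by simp)
      obtain ⟨i, hi1, hi2⟩ := hγ' n c
      exact ⟨i, j, fun _ => ⟨(hc j (by simp)).trans hi1, fun a ha => (hj _ ⟨a, ha, rfl⟩).le,
        (hc γ (by simp)).trans hi1, hi2⟩⟩
    · exact ⟨γ, γ, fun h' => absurd h' hA⟩
  choose nxt prv hnp using hnext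
  let f : I → W := hIwf.fix fun x rec => nxt {a | ∃ (y : I) (hy : y < x), a = rec y hy} x.2
  have hf : ∀ x : I, f x = nxt {a | ∃ (y : I) (_ : y < x), a = f y} x.2 := by
    intro x
    exact hIwf.fix_eq (fun x (rec : ∀ y, y < x → W) =>
      nxt {a | ∃ (y : I) (hy : y < x), a = rec y hy} x.2) x
  have hfp : ∀ x : I, ∃ j : W, j < f x ∧ (∀ y < x, h (f y) ≤ j) ∧ γ < f x ∧
      ∀ u ∈ F x.2 (f x), (∃ l < f x, Iic l ∈ u) → Iic (γ' x.2) ∈ u := by
    intro x
    have hcard : #{a | ∃ (y : I) (_ : y < x), a = f y} ≤ ℵ₁ := by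
      refine (Cardinal.mk_le_mk_of_subset (t := range f) ?_).trans
        (Cardinal.mk_range_le.trans hI)
      rintro _ ⟨y, -, rfl⟩
      exact ⟨y, rfl⟩
    have h1 := hnp {a | ∃ (y : I) (_ : y < x), a = f y} x.2 hcard
    rw [← hf x] at h1
    exact ⟨_, h1.1, fun y hy => h1.2.1 _ ⟨y, hy, rfl⟩, h1.2.2.1, h1.2.2.2⟩
  choose j hj1 hj2 hj3 hj4 using hfp
  have hfm : StrictMono f := by
    intro x y hxy
    exact (hh1 (f x)).trans_lt ((hj2 y x hxy).trans_lt (hj1 y))
  obtain ⟨δ, hδ⟩ := hW.bdd (range f) (Cardinal.mk_range_le.trans hI)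
  let b : Set W := {a | a ≤ γ ∨ ∃ x : I, a ≤ f x ∧ ∀ y < x, h (f y) < a}
  have hb1 : Iic γ ⊆ b := fun a ha => Or.inl ha
  have hb2 : ∀ x, Ioc (j x) (f x) ⊆ b := fun x a ha =>
    Or.inr ⟨x, ha.2, fun y hy => (hj2 x y hy).trans_lt ha.1⟩
  have hb3 : ∀ x, b ∩ Iic (h (f x)) ⊆ Iic (f x) := by
    rintro x a ⟨ha | ⟨y, hy1, hy2⟩, hax⟩
    · exact ha.trans (hj3 x).le
    · rcases lt_trichotomy x y with hxy | rfl | hxy
      · exact absurd (hy2 x hxy) (not_lt.2 hax)
      · exact hy1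
      · exact hy1.trans (hfm hxy).le
  have hb4 : b ⊆ Iic (max γ δ) := by
    rintro a (ha | ⟨y, hy1, -⟩)
    · exact ha.trans (le_max_left _ _)
    · exact (hy1.trans (hδ _ ⟨y, rfl⟩).le).trans (le_max_right _ _)
  have key : ∀ x : I, ∀ u ∈ F x.2 (f x), (b ∈ u ↔ Iic (f x) ∈ u) := by
    intro x u hu
    constructor
    · intro hbu
      have h1 : Iic (h (f x)) ∈ u := hh2 (f x) x.2 u hu ⟨_, mem_of_superset hbu hb4⟩
      exact mem_of_superset (inter_mem hbu h1) (hb3 x)
    · intro hiu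
      by_cases hl : ∃ l < f x, Iic l ∈ u
      · have h1 := hj4 x u hu hl
        exact mem_of_superset h1 ((Iic_subset_Iic.2 (hγ _ ⟨_, rfl⟩).le).trans hb1)
      · push Not at hl
        have h1 := hl (j x) (hj1 x)
        have h2 : (Iic (j x))ᶜ ∈ u := Ultrafilter.compl_mem_iff_notMem.2 h1
        refine mem_of_superset (inter_mem hiu h2) (Subset.trans ?_ (hb2 x))
        rintro a ⟨ha1, ha2⟩
        exact ⟨not_le.1 ha2, ha1⟩
  refine ⟨b, fun n hn => ?_⟩
  have h1 : (univ : Set Ω).Countable := by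
    have h2 : MapsTo (fun w : Ω => f (w, n)) univ {i | ∀ u ∈ F n i, (b ∈ u ↔ Iic i ∈ u)} :=
      fun w _ => key (w, n)
    refine h2.countable_of_injOn ?_ hn
    intro w _ w' _ hw
    have := hfm.injective hw
    exact congrArg Prod.fst this
  have h2 : #Ω ≤ ℵ₀ := by
    rw [← Cardinal.mk_univ]
    exact Cardinal.mk_le_aleph0_iff.2 h1.to_subtype
  rw [hΩ] at h2
  exact absurd h2 (not_le.2 Cardinal.aleph0_lt_aleph_one)

/-- indicator function -/
noncomputable def chi (s : Set W) : {g : Ultrafilter W → ℝ // Continuous g} :=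
  ⟨Set.indicator {u | s ∈ u} 1, by
    have h : IsClopen {u : Ultrafilter W | s ∈ u} :=
      ⟨ultrafilter_isClosed_basic s, ultrafilter_isOpen_basic s⟩
    exact h.continuous_indicator continuous_const⟩

theorem chi_one {s : Set W} {u : Ultrafilter W} (h : s ∈ u) : (chi s).1 u = 1 :=
  indicator_of_mem (s := {u : Ultrafilter W | s ∈ u}) h _

theorem chi_zero {s : Set W} {u : Ultrafilter W} (h : s ∉ u) : (chi s).1 u = 0 :=
  indicator_of_notMem (s := {u : Ultrafilter W | s ∈ u}) h _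

theorem isOpen_eval_gt (u : Ultrafilter W) (c : ℝ) :
    IsOpen {g : {g : Ultrafilter W → ℝ // Continuous g} | c < g.1 u} :=
  isOpen_lt continuous_const ((continuous_apply u).comp continuous_subtype_val)

theorem isOpen_eval_lt (u : Ultrafilter W) (c : ℝ) :
    IsOpen {g : {g : Ultrafilter W → ℝ // Continuous g} | g.1 u < c} :=
  isOpen_lt ((continuous_apply u).comp continuous_subtype_val) continuous_const

/-- The initial segments form a closed discrete set. -/
theorem discrete (hW : Big W) (g : {g : Ultrafilter W → ℝ // Continuous g}) :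
    ∃ U, IsOpen U ∧ g ∈ U ∧ {i : W | chi (Iic i) ∈ U}.Subsingleton := by
  classical
  have := hW.wf
  have hne : Nonempty W := by
    obtain ⟨w0, -⟩ := hW.bdd ∅ (by simp)
    exact ⟨w0⟩
  have hlim : ∀ (s : Set W) (u : Ultrafilter W), s ∈ u → (∀ α ∈ s, 1 / 2 ≤ g.1 (pure α)) →
      1 / 2 ≤ g.1 u := by
    intro s u hs h
    have h1 : Tendsto (fun α => g.1 (pure α)) (u : Filter W) (𝓝 (g.1 u)) :=
      (g.2.tendsto u).comp (Ultrafilter.tendsto_pure_self u)
    refine ge_of_tendsto h1 ?_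
    filter_upwards [hs] with α hα
    exact h α hα
  by_cases hT : ∃ α, g.1 (pure α) < 1 / 2
  · obtain ⟨l, hl, hmin⟩ := WellFounded.has_min
      (wellFounded_lt : WellFounded ((· < ·) : W → W → Prop)) {α | g.1 (pure α) < 1 / 2} hT
    have hlt : ∀ α < l, 1 / 2 ≤ g.1 (pure α) := by
      intro α hα
      by_contra hcon
      exact hmin α (not_le.1 hcon) hα
    -- the first neighbourhood
    have hN1 : ∀ i, (chi (Iic i)).1 (pure l) < 3 / 4 → i < l := by
      intro i hi
      by_contra hcon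
      have h1 : Iic i ∈ (pure l : Ultrafilter W) := by
        rw [Ultrafilter.mem_pure]
        exact not_lt.1 hcon
      rw [chi_one h1] at hi
      norm_num at hi
    have hl' : g.1 (pure l) < 3 / 4 := lt_trans hl (by norm_num)
    by_cases hp : ∃ m < l, ∀ α < l, α ≤ m
    · obtain ⟨m, hm, hmm⟩ := hp
      refine ⟨{g | g.1 (pure l) < 3 / 4} ∩ {g | 1 / 4 < g.1 (pure m)},
        (isOpen_eval_lt _ _).inter (isOpen_eval_gt _ _), ⟨hl', ?_⟩, ?_⟩
      · exact lt_of_lt_of_le (by norm_num) (hlt m hm)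
      · have h2 : ∀ i, chi (Iic i) ∈ {g : {g : Ultrafilter W → ℝ // Continuous g} |
            g.1 (pure l) < 3 / 4} ∩ {g | 1 / 4 < g.1 (pure m)} → i = m := by
          rintro i ⟨h1, h2⟩
          refine le_antisymm (hmm i (hN1 i h1)) ?_
          by_contra hcon
          have h3 : Iic i ∉ (pure m : Ultrafilter W) := by
            rw [Ultrafilter.mem_pure]
            exact hcon
          have h4 : (1 / 4 : ℝ) < (chi (Iic i)).1 (pure m) := h2
          rw [chi_zero h3] at h4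
          norm_num at h4
        intro i hi i' hi'
        rw [h2 i hi, h2 i' hi']
    · push Not at hp
      by_cases hl0 : ∃ α, α < l
      · -- `l` is a limit
        let B : Filter W := ⨅ β : Iio l, 𝓟 (Ioo β.1 l)
        have hBne : B.NeBot := by
          have : Nonempty (Iio l) := by
            obtain ⟨α, hα⟩ := hl0
            exact ⟨⟨α, hα⟩⟩
          refine iInf_neBot_of_directed' ?_ ?_
          · rintro ⟨a, ha⟩ ⟨c, hc⟩
            refine ⟨⟨max a c, max_lt ha hc⟩, ?_, ?_⟩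
            · refine principal_mono.2 ?_
              exact Ioo_subset_Ioo_left (le_max_left _ _)
            · refine principal_mono.2 ?_
              exact Ioo_subset_Ioo_left (le_max_right _ _)
          · rintro ⟨a, ha⟩
            obtain ⟨α, hα, haα⟩ := hp a ha
            exact principal_neBot_iff.2 ⟨α, haα, hα⟩
        let u : Ultrafilter W := Ultrafilter.of B
        have hu : ∀ β < l, Ioo β l ∈ u := by
          intro β hβ
          have h1 : Ioo β l ∈ B := mem_iInf_of_mem ⟨β, hβ⟩ (mem_principal_self _)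
          exact Ultrafilter.of_le B h1
        obtain ⟨α, hα⟩ := hl0
        refine ⟨{g | g.1 (pure l) < 3 / 4} ∩ {g | 1 / 4 < g.1 u},
          (isOpen_eval_lt _ _).inter (isOpen_eval_gt _ _), ⟨hl', ?_⟩, ?_⟩
        · refine lt_of_lt_of_le (by norm_num) (hlim (Ioo α l) u (hu α hα) ?_)
          exact fun β hβ => hlt β hβ.2
        · rintro i ⟨h1, h2⟩
          exfalso
          have h3 : i < l := hN1 i h1
          have h4 : Iic i ∉ u := by
            intro h5
            have h6 := inter_mem h5 (hu i h3)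
            have h7 : Iic i ∩ Ioo i l = ∅ := by
              ext x
              simp only [mem_inter_iff, mem_Iic, mem_Ioo, mem_empty_iff_false, iff_false, not_and]
              intro h8 h9
              exact absurd h8 (not_le.2 h9)
            rw [h7] at h6
            exact Ultrafilter.empty_notMem h6
          have h5 : (1 / 4 : ℝ) < (chi (Iic i)).1 u := h2
          rw [chi_zero h4] at h5
          norm_num at h5
      · push Not at hl0
        refine ⟨{g | g.1 (pure l) < 3 / 4}, isOpen_eval_lt _ _, hl', ?_⟩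
        intro i hi
        exact absurd (hN1 i hi) (not_lt.2 (hl0 i))
  · push Not at hT
    have hBne : (atTop : Filter W).NeBot := by infer_instance
    let u : Ultrafilter W := Ultrafilter.of atTop
    refine ⟨{g | 1 / 4 < g.1 u}, isOpen_eval_gt _ _, ?_, ?_⟩
    · exact lt_of_lt_of_le (by norm_num) (hlim univ u univ_mem fun α _ => hT α)
    · intro i hi
      exfalso
      have h4 : Iic i ∉ u := by
        intro h5
        obtain ⟨c, hc⟩ := hW.bdd_countable {i} (by simp)
        have h6 : Ici c ∈ u := Ultrafilter.of_le _ (mem_atTop c)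
        have h7 := inter_mem h5 h6
        have h8 : Iic i ∩ Ici c = ∅ := by
          ext x
          simp only [mem_inter_iff, mem_Iic, mem_Ici, mem_empty_iff_false, iff_false, not_and]
          intro h9 h10
          exact absurd (hc i (by simp)) (not_lt.2 (h10.trans h9))
        rw [h8] at h7
        exact Ultrafilter.empty_notMem h7
      have h5 : (1 / 4 : ℝ) < (chi (Iic i)).1 u := hi
      rw [chi_zero h4] at h5
      norm_num at h5

theorem basic (U : Set {g : Ultrafilter W → ℝ // Continuous g}) (hU : IsOpen U)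
    (a : {g : Ultrafilter W → ℝ // Continuous g}) (ha : a ∈ U) :
    ∃ F : Set (Ultrafilter W), F.Finite ∧
      ∀ g : {g : Ultrafilter W → ℝ // Continuous g}, (∀ u ∈ F, g.1 u = a.1 u) → g ∈ U := by
  obtain ⟨U', hU', rfl⟩ := isOpen_induced_iff.1 hU
  obtain ⟨I, v, hv, hsub⟩ := isOpen_pi_iff.1 hU' a.1 ha
  refine ⟨I, I.finite_toSet, fun g hg => hsub ?_⟩
  intro u hu
  have h1 := hg u hu
  rw [h1]
  exact (hv u hu).2

theorem not_submeta (hW : Big W) :
    ¬ (∀ 𝒰 : Set (Set {g : Ultrafilter W → ℝ // Continuous g}),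
        (∀ U ∈ 𝒰, IsOpen U) → ⋃₀ 𝒰 = Set.univ →
        ∃ 𝒱 : ℕ → Set (Set {g : Ultrafilter W → ℝ // Continuous g}),
          (∀ n, ∀ V ∈ 𝒱 n, IsOpen V ∧ ∃ U ∈ 𝒰, V ⊆ U) ∧
          (∀ n, ⋃₀ 𝒱 n = Set.univ) ∧
          ∀ x : {g : Ultrafilter W → ℝ // Continuous g}, ∃ n, {V ∈ 𝒱 n | x ∈ V}.Countable) := by
  intro hcon
  obtain ⟨𝒱, h1, h2, h3⟩ := hcon {U | IsOpen U ∧ {i : W | chi (Iic i) ∈ U}.Subsingleton}
    (fun U hU => hU.1) (by
      rw [eq_univ_iff_forall]
      intro g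
      obtain ⟨U, hU, hg, hs⟩ := discrete hW g
      exact ⟨U, ⟨hU, hs⟩, hg⟩)
  have h4 : ∀ (n : ℕ) (i : W), ∃ V ∈ 𝒱 n, chi (Iic i) ∈ V := by
    intro n i
    have : chi (Iic i) ∈ ⋃₀ 𝒱 n := by rw [h2 n]; trivial
    exact this
  choose V hV1 hV2 using h4
  choose F hF1 hF2 using fun n i => basic (V n i) (h1 n _ (hV1 n i)).1 _ (hV2 n i)
  obtain ⟨b, hb⟩ := exists_b hW F hF1
  obtain ⟨n, hn⟩ := h3 (chi b)
  apply hb n
  have h5 : MapsTo (V n) {i | ∀ u ∈ F n i, (b ∈ u ↔ Iic i ∈ u)} {V ∈ 𝒱 n | chi b ∈ V} := by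
    intro i hi
    refine ⟨hV1 n i, hF2 n i _ fun u hu => ?_⟩
    by_cases h : Iic i ∈ u
    · rw [chi_one h, chi_one ((hi u hu).2 h)]
    · rw [chi_zero h, chi_zero (fun h' => h ((hi u hu).1 h'))]
  refine h5.countable_of_injOn ?_ hn
  intro i _ i' _ hii
  obtain ⟨U, hU, hVU⟩ := (h1 n _ (hV1 n i)).2
  refine hU.2 (hVU (hV2 n i)) (hVU ?_)
  have h6 : V n i = V n i' := hii
  rw [h6]
  exact hV2 n i'

end

end Pool.Agent.H865R2.CpBeta
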