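import Mathlib

set_option autoImplicit false

namespace Pool.Agent.H865R2.MetaProd

open Set Topology Filter

/-- every open cover has a point-finite open refinement -/
def MetaCpt (X : Type) [TopologicalSpace X] : Prop :=
  ∀ 𝒰 : Set (Set X), (∀ U ∈ 𝒰, IsOpen U) → ⋃₀ 𝒰 = Set.univ →
    ∃ 𝒱 : Set (Set X), (∀ V ∈ 𝒱, IsOpen V) ∧ ⋃₀ 𝒱 = Set.univ ∧
      (∀ V ∈ 𝒱, ∃ U ∈ 𝒰, V ⊆ U) ∧ ∀ x : X, {V | V ∈ 𝒱 ∧ x ∈ V}.Finite

theorem MetaCpt.precise {X : Type} [TopologicalSpace X] (hX : MetaCpt X) {ι : Type} (U : ι → Set X)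
    (hU : ∀ i, IsOpen (U i)) (hc : ∀ x, ∃ i, x ∈ U i) :
    ∃ V : ι → Set X, (∀ i, IsOpen (V i)) ∧ (∀ i, V i ⊆ U i) ∧ (∀ x, ∃ i, x ∈ V i) ∧
      ∀ x, {i | x ∈ V i}.Finite := by
  classical
  obtain ⟨𝒱, h1, h2, h3, h4⟩ := hX (range U) (by rintro _ ⟨i, rfl⟩; exact hU i) (by
    rw [eq_univ_iff_forall]
    intro x
    obtain ⟨i, hi⟩ := hc x
    exact ⟨U i, ⟨i, rfl⟩, hi⟩)
  have hch : ∀ v : 𝒱, ∃ i, v.1 ⊆ U i := by
    rintro ⟨v, hv⟩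
    obtain ⟨_, ⟨i, rfl⟩, h⟩ := h3 v hv
    exact ⟨i, h⟩
  choose r hr using hch
  refine ⟨fun i => ⋃ v ∈ {v : 𝒱 | r v = i}, v.1, ?_, ?_, ?_, ?_⟩
  · intro i
    exact isOpen_biUnion fun v _ => h1 v.1 v.2
  · intro i x hx
    simp only [mem_iUnion, mem_ofPred_eq] at hx
    obtain ⟨v, hv, hx⟩ := hx
    exact hv ▸ hr v hx
  · intro x
    have hx : x ∈ ⋃₀ 𝒱 := by rw [h2]; trivial
    obtain ⟨v, hv, hxv⟩ := hx
    refine ⟨r ⟨v, hv⟩, ?_⟩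
    simp only [mem_iUnion, mem_ofPred_eq]
    exact ⟨⟨v, hv⟩, rfl, hxv⟩
  · intro x
    have hf : {v : 𝒱 | x ∈ v.1}.Finite := by
      refine Set.Finite.of_finite_image (f := Subtype.val) ?_ Subtype.val_injective.injOn
      refine (h4 x).subset ?_
      rintro _ ⟨v, hv, rfl⟩
      exact ⟨v.2, hv⟩
    refine (hf.image r).subset ?_
    intro i hi
    simp only [mem_ofPred_eq, mem_iUnion] at hi
    obtain ⟨v, hv, hx⟩ := hi
    exact ⟨v, hx, hv⟩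

section CPC

variable {Y : Type} [TopologicalSpace Y] (𝒞 : Set (Set Y))

/-- `y` lies in every member of `𝒞` that contains `z` -/
def le (y z : Y) : Prop := ∀ C ∈ 𝒞, z ∈ C → y ∈ C

variable {𝒞}

theorem le_refl' (y : Y) : le 𝒞 y y := fun _ _ h => h

theorem le_trans' {x y z : Y} (h : le 𝒞 x y) (h' : le 𝒞 y z) : le 𝒞 x z :=
  fun C hC hz => h C hC (h' C hC hz)

/-- minimal elements of `E` -/
def Mi (𝒞 : Set (Set Y)) (E : Set Y) : Set Y := {y | y ∈ E ∧ ∀ y' ∈ E, le 𝒞 y' y → le 𝒞 y y'}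

theorem Mi_down {E : Set Y} {y y' : Y} (hy : y ∈ Mi 𝒞 E) (hy' : y' ∈ E) (h : le 𝒞 y' y) :
    y' ∈ Mi 𝒞 E := by
  refine ⟨hy', fun w hw hwy => ?_⟩
  exact le_trans' h (hy.2 w hw (le_trans' hwy h))

/-- closure preserving family of compact closed sets -/
structure CPC (𝒞 : Set (Set Y)) : Prop where
  comp : ∀ C ∈ 𝒞, IsCompact C
  clos : ∀ C ∈ 𝒞, IsClosed C
  pres : ∀ G ⊆ 𝒞, IsClosed (⋃₀ G)

theorem CPC.isOpen_up (h : CPC 𝒞) (y : Y) : IsOpen {z | le 𝒞 y z} := by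
  have : {z | le 𝒞 y z} = (⋃₀ {C | C ∈ 𝒞 ∧ y ∉ C})ᶜ := by
    ext z
    simp only [le, mem_ofPred_eq, mem_compl_iff, mem_sUnion, not_exists, not_and]
    constructor
    · rintro hz C ⟨hC, hy⟩ hzC
      exact hy (hz C hC hzC)
    · intro hz C hC hzC
      by_contra hy
      exact hz C ⟨hC, hy⟩ hzC
  rw [this]
  exact (h.pres _ (fun C hC => hC.1)).isOpen_compl

theorem CPC.isClosed_down (h : CPC 𝒞) (z : Y) : IsClosed {y | le 𝒞 y z} := by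
  have : {y | le 𝒞 y z} = ⋂₀ {C | C ∈ 𝒞 ∧ z ∈ C} := by
    ext y
    simp only [le, mem_ofPred_eq, mem_sInter]
    exact ⟨fun h C hC => h C hC.1 hC.2, fun h C hC hz => h C ⟨hC, hz⟩⟩
  rw [this]
  exact isClosed_sInter fun C hC => h.clos C hC.1

theorem CPC.isCompact_down (h : CPC 𝒞) {z : Y} (hz : z ∈ ⋃₀ 𝒞) : IsCompact {y | le 𝒞 y z} := by
  obtain ⟨C, hC, hzC⟩ := hz
  exact (h.comp C hC).of_isClosed_subset (h.isClosed_down z) fun y hy => hy C hC hzC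

theorem mem_of_le {y z : Y} (hz : z ∈ ⋃₀ 𝒞) (h : le 𝒞 y z) : y ∈ ⋃₀ 𝒞 := by
  obtain ⟨C, hC, hzC⟩ := hz
  exact ⟨C, hC, h C hC hzC⟩

theorem CPC.isClosed_downset (h : CPC 𝒞) {E : Set Y} (hE : IsClosed E) (A : Set Y) :
    IsClosed {w | w ∈ E ∧ ∃ y ∈ A, le 𝒞 w y} := by
  rw [← isOpen_compl_iff, isOpen_iff_mem_nhds]
  intro w hw
  by_cases hwE : w ∈ E
  · refine mem_of_superset ((h.isOpen_up w).mem_nhds (le_refl' w)) ?_
    rintro v hv ⟨-, y, hy, hvy⟩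
    exact hw ⟨hwE, y, hy, le_trans' hv hvy⟩
  · refine mem_of_superset (hE.isOpen_compl.mem_nhds hwE) ?_
    rintro v hv ⟨hvE, -⟩
    exact hv hvE

theorem CPC.exists_min (h : CPC 𝒞) {E : Set Y} (hE : IsClosed E) (hES : E ⊆ ⋃₀ 𝒞) {z : Y}
    (hz : z ∈ ⋃₀ 𝒞) (hzE : ∃ y ∈ E, le 𝒞 y z) : ∃ y ∈ Mi 𝒞 E, le 𝒞 y z := by
  classical
  obtain ⟨z0, hz0, hz0z⟩ := hzE
  let α := {y : Y // y ∈ E ∧ le 𝒞 y z}
  let r : α → α → Prop := fun a b => le 𝒞 b.1 a.1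
  obtain ⟨m, hm⟩ := exists_maximal_of_chains_bounded (r := r) (by
    intro c hc
    rcases c.eq_empty_or_nonempty with rfl | hne
    · exact ⟨⟨z0, hz0, hz0z⟩, fun a ha => absurd ha (notMem_empty a)⟩
    · have hne' : Nonempty c := hne.to_subtype
      have key := IsCompact.nonempty_iInter_of_directed_nonempty_isCompact_isClosed
        (fun a : c => E ∩ {y | le 𝒞 y a.1.1}) ?_ ?_ ?_ ?_
      · obtain ⟨w, hw⟩ := key
        rw [mem_iInter] at hw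
        obtain ⟨a0, ha0⟩ := hne
        refine ⟨⟨w, (hw ⟨a0, ha0⟩).1, le_trans' (hw ⟨a0, ha0⟩).2 a0.2.2⟩, fun a ha => ?_⟩
        exact (hw ⟨a, ha⟩).2
      · rintro ⟨a, ha⟩ ⟨b, hb⟩
        by_cases hab : a = b
        · subst hab
          exact ⟨⟨a, ha⟩, subset_rfl, subset_rfl⟩
        · rcases hc ha hb hab with h1 | h1
          · exact ⟨⟨b, hb⟩, fun y hy => ⟨hy.1, le_trans' hy.2 h1⟩, subset_rfl⟩
          · exact ⟨⟨a, ha⟩, subset_rfl, fun y hy => ⟨hy.1, le_trans' hy.2 h1⟩⟩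
      · rintro ⟨a, ha⟩
        exact ⟨a.1, a.2.1, le_refl' _⟩
      · rintro ⟨a, ha⟩
        exact (h.isCompact_down (hES a.2.1)).inter_left hE
      · rintro ⟨a, ha⟩
        exact hE.inter (h.isClosed_down a.1)) (by
    intro a b c hab hbc
    exact le_trans' hbc hab)
  refine ⟨m.1, ⟨m.2.1, fun y' hy' hy'm => ?_⟩, m.2.2⟩
  exact hm ⟨y', hy', le_trans' hy'm m.2.2⟩ hy'm

/-- A decreasing sequence of closed sets each of which misses the minimal part of the preceding one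
has empty intersection; moreover no point of the union of `𝒞` is above all of them. -/
theorem CPC.no_seq (h : CPC 𝒞) (E : ℕ → Set Y) (hE : ∀ n, IsClosed (E n))
    (hES : ∀ n, E n ⊆ ⋃₀ 𝒞) (hmono : ∀ n, E (n + 1) ⊆ E n)
    (hmin : ∀ n, ∀ y ∈ Mi 𝒞 (E n), y ∉ E (n + 1)) (z : Y) (hz : z ∈ ⋃₀ 𝒞) :
    ∃ n, ∀ y ∈ E n, ¬ le 𝒞 y z := by
  classical
  by_contra hcon
  push Not at hcon
  have hanti : Antitone E := antitone_nat_of_succ_le hmono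
  -- a point below `z` in all of the sets
  have key := IsCompact.nonempty_iInter_of_directed_nonempty_isCompact_isClosed
      (fun n : ℕ => E n ∩ {y | le 𝒞 y z})
      (by
        intro m n
        refine ⟨max m n, ?_, ?_⟩
        · exact fun y hy => ⟨hanti (le_max_left _ _) hy.1, hy.2⟩
        · exact fun y hy => ⟨hanti (le_max_right _ _) hy.1, hy.2⟩)
      (by
        intro n
        obtain ⟨y, hy, hyz⟩ := hcon n
        exact ⟨y, hy, hyz⟩)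
      (fun n => (h.isCompact_down hz).inter_left (hE n))
      (fun n => (hE n).inter (h.isClosed_down z))
  obtain ⟨w, hw⟩ := key
  rw [mem_iInter] at hw
  have hwS : w ∈ ⋃₀ 𝒞 := hES 0 (hw 0).1
  have hex : ∀ n, ∃ y ∈ Mi 𝒞 (E n), le 𝒞 y w := fun n =>
    h.exists_min (hE n) (hES n) hwS ⟨w, (hw n).1, le_refl' w⟩
  choose y hy hyw using hex
  obtain ⟨u, hu, hcl⟩ := (h.isCompact_down hwS).exists_mapClusterPt_of_frequently
    (l := atTop) (f := y) (Frequently.of_forall hyw)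
  have huE : ∀ n, u ∈ E n := by
    intro n
    refine (hE n).mem_of_mapClusterPt hcl ?_
    filter_upwards [eventually_ge_atTop n] with m hm
    exact hanti hm (hy m).1
  obtain ⟨n, hn⟩ := (hcl.frequently ((h.isOpen_up u).mem_nhds (le_refl' u))).exists
  exact hmin n u (Mi_down (hy n) (huE n) hn) (huE (n + 1))

end CPC

section Step

variable {X Y : Type} [TopologicalSpace X] [TopologicalSpace Y] {𝒞 : Set (Set Y)}

theorem step (hX : MetaCpt X) (hY : MetaCpt Y) (h : CPC 𝒞) {𝒰 : Set (Set (Y × X))}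
    (h𝒰 : ∀ U ∈ 𝒰, IsOpen U) (hcov : ⋃₀ 𝒰 = univ) (E : Set Y) (hE : IsClosed E)
    (hES : E ⊆ ⋃₀ 𝒞) :
    ∃ (𝒱 : Set (Set (Y × X))) (𝒯 : Set (Set Y × Set (Y × X))),
      (∀ V ∈ 𝒱, IsOpen V ∧ ∃ U ∈ 𝒰, V ⊆ U) ∧ (∀ p, {V | V ∈ 𝒱 ∧ p ∈ V}.Finite) ∧
      (∀ t ∈ 𝒯, IsClosed t.1 ∧ t.1 ⊆ E ∧ (∀ y ∈ Mi 𝒞 E, y ∉ t.1) ∧ IsOpen t.2) ∧
      (∀ p, {t | t ∈ 𝒯 ∧ p ∈ t.2}.Finite) ∧
      ∀ p : Y × X, p.1 ∈ E → p ∉ ⋃₀ 𝒱 → ∃ t ∈ 𝒯, p.1 ∈ t.1 ∧ p ∈ t.2 := by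
  classical
  -- the classes of minimal points
  let ι : Type := {K : Set Y // ∃ y ∈ Mi 𝒞 E, K = {w | w ∈ E ∧ le 𝒞 w y}}
  have hιMi : ∀ K : ι, K.1 ⊆ Mi 𝒞 E := by
    rintro ⟨K, y, hy, rfl⟩ w hw
    exact Mi_down hy hw.1 hw.2
  have hιcl : ∀ K : ι, ∀ w ∈ K.1, K.1 = {v | v ∈ E ∧ le 𝒞 v w} := by
    rintro ⟨K, y, hy, rfl⟩ w hw
    ext v
    constructor
    · rintro ⟨hv, hvy⟩
      exact ⟨hv, le_trans' hvy (hy.2 w hw.1 hw.2)⟩
    · rintro ⟨hv, hvw⟩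
      exact ⟨hv, le_trans' hvw hw.2⟩
  have hιcomp : ∀ K : ι, IsCompact K.1 := by
    rintro ⟨K, y, hy, rfl⟩
    exact (h.isCompact_down (hES hy.1)).inter_left hE
  -- point-finite expansion
  obtain ⟨G, hG1, hG2, hG3, hG4⟩ := hY.precise
    (fun o : Option ι => match o with
      | none => {w | w ∈ E ∧ ∃ y ∈ Mi 𝒞 E, le 𝒞 w y}ᶜ
      | some K => {w | w ∈ E ∧ ∃ y ∈ (Mi 𝒞 E \ K.1), le 𝒞 w y}ᶜ)
    (by
      rintro (_ | K)
      · exact (h.isClosed_downset hE _).isOpen_compl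
      · exact (h.isClosed_downset hE _).isOpen_compl)
    (by
      intro w
      by_cases hw : w ∈ Mi 𝒞 E
      · refine ⟨some ⟨{v | v ∈ E ∧ le 𝒞 v w}, w, hw, rfl⟩, ?_⟩
        rintro ⟨-, y, ⟨hy, hyK⟩, hwy⟩
        exact hyK ⟨hy.1, hy.2 w hw.1 hwy⟩
      · refine ⟨none, ?_⟩
        rintro ⟨hwE, y, hy, hwy⟩
        exact hw (Mi_down hy hwE hwy))
  have hGK : ∀ (K : ι) (y : Y), y ∈ K.1 → y ∈ G (some K) := by
    intro K y hy
    obtain ⟨o, ho⟩ := hG3 y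
    have h1 := hG2 o ho
    rcases o with _ | K'
    · exact absurd ⟨(hιMi K hy).1, y, hιMi K hy, le_refl' y⟩ h1
    · have h2 : y ∈ K'.1 := by
        by_contra hcon
        exact h1 ⟨(hιMi K hy).1, y, ⟨hιMi K hy, hcon⟩, le_refl' y⟩
      have h3 : K = K' := Subtype.ext ((hιcl K y hy).trans (hιcl K' y h2).symm)
      rw [h3]
      exact ho
  -- tubes
  have htube : ∀ (K : ι) (x : X), ∃ (H : Set Y) (N : Set X) (𝒰' : Set (Set (Y × X))),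
      𝒰' ⊆ 𝒰 ∧ 𝒰'.Finite ∧ IsOpen H ∧ IsOpen N ∧ K.1 ⊆ H ∧ x ∈ N ∧ H ×ˢ N ⊆ ⋃₀ 𝒰' := by
    intro K x
    have hc : IsCompact (K.1 ×ˢ ({x} : Set X)) := (hιcomp K).prod isCompact_singleton
    obtain ⟨𝒰', h1, h2, h3⟩ := hc.elim_finite_subcover_image (b := 𝒰) (c := fun U => U) h𝒰 (by
      rw [← sUnion_eq_biUnion, hcov]
      exact subset_univ _)
    rw [← sUnion_eq_biUnion] at h3
    obtain ⟨H, N, hH, hN, hKH, hxN, hHN⟩ := generalized_tube_lemma (hιcomp K)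
      (isCompact_singleton (x := x)) (isOpen_sUnion fun U hU => h𝒰 U (h1 hU)) h3
    exact ⟨H, N, 𝒰', h1, h2, hH, hN, hKH, hxN rfl, hHN⟩
  choose H N 𝒰' hU1 hU2 hH hN hKH hxN hHN using htube
  have hpr : ∀ K : ι, ∃ N' : X → Set X, (∀ i, IsOpen (N' i)) ∧ (∀ i, N' i ⊆ N K i) ∧
      (∀ x, ∃ i, x ∈ N' i) ∧ ∀ x, {i | x ∈ N' i}.Finite := fun K =>
    hX.precise (N K) (hN K) (fun x => ⟨x, hxN K x⟩)
  choose N' hN'o hN's hN'c hN'f using hpr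
  -- the finite set of relevant pairs
  let A : Y × X → Set (ι × X) := fun p => {l | p.1 ∈ G (some l.1) ∧ p.2 ∈ N' l.1 l.2}
  have hA : ∀ p, (A p).Finite := by
    intro p
    have h1 : {K : ι | p.1 ∈ G (some K)}.Finite := by
      refine Set.Finite.of_finite_image (f := some) ?_ (Option.some_injective _).injOn
      refine (hG4 p.1).subset ?_
      rintro _ ⟨K, hK, rfl⟩
      exact hK
    have h2 := h1.biUnion (t := fun K => (fun i => (K, i)) '' {i | p.2 ∈ N' K i})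
      (fun K _ => (hN'f K p.2).image _)
    refine h2.subset ?_
    rintro ⟨K, i⟩ ⟨hK, hi⟩
    simp only [mem_iUnion]
    exact ⟨K, hK, i, hi, rfl⟩
  let Ea : Finset (ι × X) → Set Y := fun a =>
    {y | y ∈ E ∧ (∀ K : ι, (∀ i, (K, i) ∉ a) → y ∉ G (some K)) ∧
      ∀ l ∈ a, y ∉ H l.1 l.2 ∩ G (some l.1)}
  let Wa : Finset (ι × X) → Set (Y × X) := fun a =>
    ⋂ l ∈ a, (G (some l.1)) ×ˢ (N' l.1 l.2)
  refine ⟨{V | ∃ (K : ι) (i : X), ∃ U ∈ 𝒰' K i,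
      V = ((H K i ∩ G (some K)) ×ˢ N' K i) ∩ U}, range fun a => (Ea a, Wa a), ?_, ?_, ?_, ?_, ?_⟩
  · rintro _ ⟨K, i, U, hU, rfl⟩
    refine ⟨?_, U, hU1 K i hU, inter_subset_right⟩
    exact (((hH K i).inter (hG1 _)).prod (hN'o K i)).inter (h𝒰 U (hU1 K i hU))
  · intro p
    have h2 := (hA p).biUnion (t := fun l =>
      (fun U => ((H l.1 l.2 ∩ G (some l.1)) ×ˢ N' l.1 l.2) ∩ U) '' 𝒰' l.1 l.2)
      (fun l _ => (hU2 l.1 l.2).image _)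
    refine h2.subset ?_
    rintro _ ⟨⟨K, i, U, hU, rfl⟩, ⟨⟨⟨-, hpG⟩, hpN⟩, -⟩⟩
    simp only [mem_iUnion]
    exact ⟨(K, i), ⟨hpG, hpN⟩, U, hU, rfl⟩
  · rintro _ ⟨a, rfl⟩
    refine ⟨?_, fun y hy => hy.1, ?_, ?_⟩
    · have : Ea a = E ∩ ((⋂ (K : ι) (_ : ∀ i, (K, i) ∉ a), (G (some K))ᶜ) ∩
          ⋂ l ∈ a, (H l.1 l.2 ∩ G (some l.1))ᶜ) := by
        ext y
        simp only [Ea, mem_ofPred_eq, mem_inter_iff, mem_iInter, mem_compl_iff]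
      show IsClosed (Ea a)
      rw [this]
      refine hE.inter ((isClosed_iInter fun K => isClosed_iInter fun _ => ?_).inter
        (isClosed_biInter fun l _ => ?_))
      · exact (hG1 _).isClosed_compl
      · exact ((hH _ _).inter (hG1 _)).isClosed_compl
    · rintro y hy ⟨-, h1, h2⟩
      let K : ι := ⟨{v | v ∈ E ∧ le 𝒞 v y}, y, hy, rfl⟩
      have hyK : y ∈ K.1 := ⟨hy.1, le_refl' y⟩
      have hyG := hGK K y hyK
      have h3 : ∃ i, (K, i) ∈ a := by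
        by_contra hcon
        push Not at hcon
        exact h1 K hcon hyG
      obtain ⟨i, hi⟩ := h3
      exact h2 _ hi ⟨hKH K i hyK, hyG⟩
    · exact isOpen_biInter_finset fun l _ => (hG1 _).prod (hN'o _ _)
  · intro p
    have h1 : {a : Finset (ι × X) | (a : Set (ι × X)) ⊆ A p}.Finite := by
      refine ((hA p).toFinset.powerset.finite_toSet).subset ?_
      intro a ha
      simp only [Finset.coe_powerset, mem_preimage, mem_powerset_iff]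
      intro l hl
      simpa using ha hl
    refine (h1.image fun a => (Ea a, Wa a)).subset ?_
    rintro _ ⟨⟨a, rfl⟩, hp⟩
    refine ⟨a, ?_, rfl⟩
    intro l hl
    have h2 := mem_iInter₂.1 hp l hl
    exact h2
  · intro p hpE hp
    refine ⟨_, ⟨(hA p).toFinset, rfl⟩, ⟨hpE, ?_, ?_⟩, ?_⟩
    · intro K hK hpG
      obtain ⟨i, hi⟩ := hN'c K p.2
      exact hK i (by simpa using (show (K, i) ∈ A p from ⟨hpG, hi⟩))
    · intro l hl hpH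
      have hl' : l ∈ A p := by simpa using hl
      apply hp
      have h1 : p ∈ ⋃₀ 𝒰' l.1 l.2 := hHN l.1 l.2 ⟨hpH.1, hN's _ _ hl'.2⟩
      obtain ⟨U, hU, hpU⟩ := h1
      exact ⟨_, ⟨l.1, l.2, U, hU, rfl⟩, ⟨hpH, hl'.2⟩, hpU⟩
    · refine mem_iInter₂.2 fun l hl => ?_
      have hl' : l ∈ A p := by simpa using hl
      exact hl'

end Step

section Koenig

/-- A simple form of the lemma of Koenig. -/
theorem koenig {S : Type} (good : S → Prop) (child : S → S → Prop)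
    (hfin : ∀ s, good s → {s' | child s s' ∧ good s'}.Finite) (P : ℕ → Set S)
    (s0 : S) (hP0 : ∀ s ∈ P 0, s = s0)
    (hparent : ∀ n, ∀ s ∈ P (n + 1), good s → ∃ s' ∈ P n, child s' s ∧ good s')
    (hne : ∀ n, ∃ s ∈ P n, good s) :
    ∃ f : ℕ → S, f 0 = s0 ∧ (∀ n, child (f n) (f (n + 1))) ∧ ∀ n, good (f n) := by
  classical
  -- `reach m s`: there is a good chain of length `m` starting in `s`
  let reach : ℕ → S → Prop := fun m => Nat.rec good (fun _ R s => good s ∧ ∃ s', child s s' ∧ R s') m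
  have hreach0 : ∀ s, reach 0 s = good s := fun _ => rfl
  have hreachS : ∀ m s, reach (m + 1) s = (good s ∧ ∃ s', child s s' ∧ reach m s') := fun _ _ => rfl
  have hgood : ∀ m s, reach m s → good s := by
    intro m s hs
    cases m with
    | zero => exact hs
    | succ m => exact hs.1
  have hdown : ∀ m s, reach (m + 1) s → reach m s := by
    intro m
    induction m with
    | zero => exact fun s hs => hs.1
    | succ m ih =>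
      rintro s ⟨h1, s', h2, h3⟩
      exact ⟨h1, s', h2, ih s' h3⟩
  have hanti : ∀ s m m', m ≤ m' → reach m' s → reach m s := by
    intro s m m' hmm
    induction m', hmm using Nat.le_induction with
    | base => exact id
    | succ k _ ih => exact fun hk => ih (hdown k s hk)
  have hup : ∀ n m, ∀ s ∈ P n, reach m s → reach (n + m) s0 := by
    intro n
    induction n with
    | zero =>
      intro m s hs hr
      rw [hP0 s hs] at hr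
      rwa [Nat.zero_add]
    | succ n ih =>
      intro m s hs hr
      obtain ⟨s', hs', hc, hg⟩ := hparent n s hs (hgood m s hr)
      have := ih (m + 1) s' hs' ⟨hg, s, hc, hr⟩
      rwa [show n + 1 + m = n + (m + 1) by omega]
  have hroot : ∀ m, reach m s0 := by
    intro m
    obtain ⟨s, hs, hg⟩ := hne m
    exact hup m 0 s hs hg
  have hnext : ∀ s, (∀ m, reach m s) → ∃ s', child s s' ∧ ∀ m, reach m s' := by
    intro s hs
    by_contra hcon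
    push Not at hcon
    have hF := hfin s (hgood 0 s (hs 0))
    have h1 : ∀ s' : S, ∃ m, child s s' → ¬ reach m s' := by
      intro s'
      by_cases hc : child s s'
      · obtain ⟨m, hm⟩ := hcon s' hc
        exact ⟨m, fun _ => hm⟩
      · exact ⟨0, fun hc' => absurd hc' hc⟩
    choose m hm using h1
    obtain ⟨M, hM⟩ := (hF.image m).bddAbove
    obtain ⟨-, s', hc, hr⟩ := hs (M + 1)
    have h2 : m s' ≤ M := hM ⟨s', ⟨hc, hgood M s' hr⟩, rfl⟩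
    exact hm s' hc (hanti s' _ _ h2 hr)
  choose g hg1 hg2 using hnext
  let F : ℕ → {s : S // ∀ m, reach m s} := fun n =>
    Nat.rec ⟨s0, hroot⟩ (fun _ s => ⟨g s.1 s.2, hg2 s.1 s.2⟩) n
  refine ⟨fun n => (F n).1, rfl, fun n => ?_, fun n => (F n).2 0⟩
  exact hg1 (F n).1 (F n).2

end Koenig

section Main

variable {X Y : Type} [TopologicalSpace X] [TopologicalSpace Y] {𝒞 : Set (Set Y)}

theorem main_cpc (hX : MetaCpt X) (hY : MetaCpt Y) (h : CPC 𝒞) {𝒰 : Set (Set (Y × X))}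
    (h𝒰 : ∀ U ∈ 𝒰, IsOpen U) (hcov : ⋃₀ 𝒰 = univ) :
    ∃ (𝒬 : ℕ → Set (Set (Y × X))) (H : ℕ → Set (Y × X)),
      (∀ n, ∀ V ∈ 𝒬 n, IsOpen V ∧ ∃ U ∈ 𝒰, V ⊆ U) ∧
      (∀ n p, {V | V ∈ 𝒬 n ∧ p ∈ V}.Finite) ∧
      (∀ n, IsClosed (H n)) ∧ (∀ n, ∀ p ∈ H n, ∃ k < n, p ∈ ⋃₀ 𝒬 k) ∧
      ∀ p : Y × X, p.1 ∈ ⋃₀ 𝒞 → ∃ n, p ∈ H n := by
  classical
  have hst : ∀ E : Set Y, ∃ (𝒱 : Set (Set (Y × X))) (𝒯 : Set (Set Y × Set (Y × X))),
      IsClosed E → E ⊆ ⋃₀ 𝒞 →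
      (∀ V ∈ 𝒱, IsOpen V ∧ ∃ U ∈ 𝒰, V ⊆ U) ∧ (∀ p, {V | V ∈ 𝒱 ∧ p ∈ V}.Finite) ∧
      (∀ t ∈ 𝒯, IsClosed t.1 ∧ t.1 ⊆ E ∧ (∀ y ∈ Mi 𝒞 E, y ∉ t.1) ∧ IsOpen t.2) ∧
      (∀ p, {t | t ∈ 𝒯 ∧ p ∈ t.2}.Finite) ∧
      ∀ p : Y × X, p.1 ∈ E → p ∉ ⋃₀ 𝒱 → ∃ t ∈ 𝒯, p.1 ∈ t.1 ∧ p ∈ t.2 := by
    intro E
    by_cases hE : IsClosed E ∧ E ⊆ ⋃₀ 𝒞
    · obtain ⟨𝒱, 𝒯, h1⟩ := step hX hY h h𝒰 hcov E hE.1 hE.2
      exact ⟨𝒱, 𝒯, fun _ _ => h1⟩
    · exact ⟨∅, ∅, fun h1 h2 => absurd ⟨h1, h2⟩ hE⟩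
  choose 𝒱 𝒯 hVT using hst
  have hSc : IsClosed (⋃₀ 𝒞) := h.pres 𝒞 subset_rfl
  let child : Set Y × Set (Y × X) → Set Y × Set (Y × X) → Prop := fun s s' =>
    ∃ t ∈ 𝒯 s.1, s' = (t.1, s.2 ∩ t.2)
  let P : ℕ → Set (Set Y × Set (Y × X)) := fun n =>
    Nat.rec {(⋃₀ 𝒞, univ)} (fun _ Q => {s' | ∃ s ∈ Q, child s s'}) n
  have hP0 : P 0 = {(⋃₀ 𝒞, univ)} := rfl
  have hPS : ∀ n, P (n + 1) = {s' | ∃ s ∈ P n, child s s'} := fun _ => rfl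
  have hI1 : ∀ n, ∀ s ∈ P n, IsClosed s.1 ∧ s.1 ⊆ ⋃₀ 𝒞 ∧ IsOpen s.2 := by
    intro n
    induction n with
    | zero =>
      rintro s hs
      rw [hP0] at hs
      obtain rfl := mem_singleton_iff.1 hs
      exact ⟨hSc, subset_rfl, isOpen_univ⟩
    | succ n ih =>
      rintro s hs
      rw [hPS] at hs
      obtain ⟨s', hs', t, ht, rfl⟩ := hs
      obtain ⟨h1, h2, h3⟩ := ih s' hs'
      obtain ⟨-, -, h4, -, -⟩ := hVT s'.1 h1 h2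
      obtain ⟨h5, h6, -, h7⟩ := h4 t ht
      exact ⟨h5, h6.trans h2, h3.inter h7⟩
  have hI2 : ∀ n, ∀ p, {s | s ∈ P n ∧ p ∈ s.2}.Finite := by
    intro n
    induction n with
    | zero =>
      intro p
      refine (finite_singleton ((⋃₀ 𝒞, univ) : Set Y × Set (Y × X))).subset ?_
      exact fun s hs => hs.1
    | succ n ih =>
      intro p
      have h1 := (ih p).biUnion (t := fun s => (fun t : Set Y × Set (Y × X) => (t.1, s.2 ∩ t.2)) ''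
        {t | t ∈ 𝒯 s.1 ∧ p ∈ t.2}) (by
          rintro s ⟨hs, -⟩
          obtain ⟨h1, h2, -⟩ := hI1 n s hs
          obtain ⟨-, -, -, h5, -⟩ := hVT s.1 h1 h2
          exact (h5 p).image _)
      refine h1.subset ?_
      rintro s' ⟨hs', hp⟩
      rw [hPS] at hs'
      obtain ⟨s, hs, t, ht, rfl⟩ := hs'
      simp only [mem_iUnion]
      exact ⟨s, ⟨hs, hp.1⟩, t, ⟨ht, hp.2⟩, rfl⟩
  let 𝒬 : ℕ → Set (Set (Y × X)) := fun n => {V' | ∃ s ∈ P n, ∃ V ∈ 𝒱 s.1, V' = V ∩ s.2}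
  have hI3 : ∀ n, ∀ p : Y × X, p.1 ∈ ⋃₀ 𝒞 → (∃ k < n, p ∈ ⋃₀ 𝒬 k) ∨
      ∃ s ∈ P n, p.1 ∈ s.1 ∧ p ∈ s.2 := by
    intro n p hp
    induction n with
    | zero => exact Or.inr ⟨_, rfl, hp, mem_univ _⟩
    | succ n ih =>
      rcases ih with ⟨k, hk, hpk⟩ | ⟨s, hs, hp1, hp2⟩
      · exact Or.inl ⟨k, by omega, hpk⟩
      · obtain ⟨h1, h2, h3⟩ := hI1 n s hs
        obtain ⟨-, -, -, -, h8⟩ := hVT s.1 h1 h2
        by_cases hpV : p ∈ ⋃₀ 𝒱 s.1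
        · obtain ⟨V, hV, hpV⟩ := hpV
          exact Or.inl ⟨n, by omega, V ∩ s.2, ⟨s, hs, V, hV, rfl⟩, hpV, hp2⟩
        · obtain ⟨t, ht, hp3, hp4⟩ := h8 p hp1 hpV
          refine Or.inr ⟨(t.1, s.2 ∩ t.2), ?_, hp3, hp2, hp4⟩
          rw [hPS]
          exact ⟨s, hs, t, ht, rfl⟩
  -- the bad sets
  let B : ℕ → Set (Y × X) := fun n => {p | ∃ s ∈ P n, p ∈ s.2 ∧ ∃ y ∈ s.1, le 𝒞 y p.1}
  have hB : ∀ n, IsOpen (B n) := by
    intro n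
    have : B n = ⋃ s ∈ P n, (s.2 ∩ ⋃ y ∈ s.1, Prod.fst ⁻¹' {z | le 𝒞 y z}) := by
      ext p
      simp only [B, mem_ofPred_eq, mem_iUnion, mem_inter_iff, mem_preimage, exists_prop]
    rw [this]
    refine isOpen_biUnion fun s hs => (hI1 n s hs).2.2.inter (isOpen_biUnion fun y _ => ?_)
    exact (h.isOpen_up y).preimage continuous_fst
  refine ⟨𝒬, fun n => {p | p.1 ∈ ⋃₀ 𝒞} \ B n, ?_, ?_, ?_, ?_, ?_⟩
  · rintro n _ ⟨s, hs, V, hV, rfl⟩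
    obtain ⟨h1, h2, h3⟩ := hI1 n s hs
    obtain ⟨h4, -, -, -, -⟩ := hVT s.1 h1 h2
    obtain ⟨h5, U, hU, hVU⟩ := h4 V hV
    exact ⟨h5.inter h3, U, hU, inter_subset_left.trans hVU⟩
  · intro n p
    have h1 := (hI2 n p).biUnion (t := fun s => (fun V => V ∩ s.2) '' {V | V ∈ 𝒱 s.1 ∧ p ∈ V}) (by
      rintro s ⟨hs, -⟩
      obtain ⟨h1, h2, -⟩ := hI1 n s hs
      obtain ⟨-, h5, -, -, -⟩ := hVT s.1 h1 h2
      exact (h5 p).image _)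
    refine h1.subset ?_
    rintro _ ⟨⟨s, hs, V, hV, rfl⟩, hp1, hp2⟩
    simp only [mem_iUnion]
    exact ⟨s, ⟨hs, hp2⟩, V, ⟨hV, hp1⟩, rfl⟩
  · intro n
    exact (hSc.preimage continuous_fst).sdiff (hB n)
  · rintro n p ⟨hp, hpB⟩
    rcases hI3 n p hp with h1 | ⟨s, hs, hp1, hp2⟩
    · exact h1
    · exact absurd ⟨s, hs, hp2, p.1, hp1, le_refl' _⟩ hpB
  · intro p hp
    by_contra hcon
    push Not at hcon
    have hcon' : ∀ n, p ∈ B n := by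
      intro n
      by_contra hpB
      exact hcon n ⟨hp, hpB⟩
    obtain ⟨f, hf0, hfc, hfg⟩ := koenig
      (good := fun s : Set Y × Set (Y × X) => (IsClosed s.1 ∧ s.1 ⊆ ⋃₀ 𝒞) ∧ p ∈ s.2 ∧
        ∃ y ∈ s.1, le 𝒞 y p.1)
      (child := child)
      (by
        rintro s ⟨⟨hs1, hs2⟩, -⟩
        obtain ⟨-, -, -, h5, -⟩ := hVT s.1 hs1 hs2
        refine ((h5 p).image fun t => (t.1, s.2 ∩ t.2)).subset ?_
        rintro _ ⟨⟨t, ht, rfl⟩, -, hp2, -⟩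
        exact ⟨t, ⟨ht, hp2.2⟩, rfl⟩)
      P (⋃₀ 𝒞, univ) (fun s hs => hs)
      (by
        rintro n s hs ⟨-, hp2, y, hy, hyp⟩
        rw [hPS] at hs
        obtain ⟨s', hs', t, ht, rfl⟩ := hs
        obtain ⟨h1, h2, h3⟩ := hI1 n s' hs'
        obtain ⟨-, -, h4, -, -⟩ := hVT s'.1 h1 h2
        obtain ⟨h5, h6, -, h7⟩ := h4 t ht
        exact ⟨s', hs', ⟨t, ht, rfl⟩, ⟨h1, h2⟩, hp2.1, y, h6 hy, hyp⟩)
      (by
        intro n
        obtain ⟨s, hs, hp2, hy⟩ := hcon' n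
        exact ⟨s, hs, ⟨(hI1 n s hs).1, (hI1 n s hs).2.1⟩, hp2, hy⟩)
    obtain ⟨n, hn⟩ := h.no_seq (fun n => (f n).1) (fun n => (hfg n).1.1) (fun n => (hfg n).1.2)
      (by
        intro n
        obtain ⟨t, ht, he⟩ := hfc n
        obtain ⟨-, -, h4, -, -⟩ := hVT (f n).1 (hfg n).1.1 (hfg n).1.2
        show (f (n + 1)).1 ⊆ (f n).1
        rw [he]
        exact (h4 t ht).2.1)
      (by
        intro n y hy hy'
        obtain ⟨t, ht, he⟩ := hfc n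
        obtain ⟨-, -, h4, -, -⟩ := hVT (f n).1 (hfg n).1.1 (hfg n).1.2
        have hy'' : y ∈ (f (n + 1)).1 := hy'
        rw [he] at hy''
        exact (h4 t ht).2.2.1 y hy hy'') p.1 hp
    obtain ⟨y, hy, hyp⟩ := (hfg n).2.2
    exact hn y hy hyp

theorem meta_prod (hX : MetaCpt X) (hY : MetaCpt Y) (F : ℕ → Set (Set Y)) (hF : ∀ n, CPC (F n))
    (hFc : (⋃ n, ⋃₀ F n) = univ) : MetaCpt (Y × X) := by
  classical
  intro 𝒰 h𝒰 hcov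
  choose 𝒬 H hQ1 hQ2 hH1 hH2 hH3 using fun n => main_cpc hX hY (hF n) h𝒰 hcov
  let A : ℕ → Set (Y × X) := fun m => H (Nat.unpair m).1 (Nat.unpair m).2
  let 𝒲 : ℕ → Set (Set (Y × X)) := fun m => ⋃ k ∈ Iio (Nat.unpair m).2, 𝒬 (Nat.unpair m).1 k
  have hAc : ∀ p : Y × X, ∃ m, p ∈ A m := by
    intro p
    have hp : p.1 ∈ ⋃ n, ⋃₀ F n := by rw [hFc]; trivial
    obtain ⟨i, hi⟩ := mem_iUnion.1 hp
    obtain ⟨n, hn⟩ := hH3 i p hi
    refine ⟨Nat.pair i n, ?_⟩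
    simpa [A] using hn
  have hWf : ∀ m p, {V | V ∈ 𝒲 m ∧ p ∈ V}.Finite := by
    intro m p
    have h1 := (finite_Iio (Nat.unpair m).2).biUnion
      (t := fun k => {V | V ∈ 𝒬 (Nat.unpair m).1 k ∧ p ∈ V}) (fun k _ => hQ2 _ _ _)
    refine h1.subset ?_
    rintro V ⟨hV, hp⟩
    simp only [𝒲, mem_iUnion] at hV
    obtain ⟨k, hk, hV⟩ := hV
    simp only [mem_iUnion]
    exact ⟨k, hk, hV, hp⟩
  have hWo : ∀ m, ∀ V ∈ 𝒲 m, IsOpen V ∧ ∃ U ∈ 𝒰, V ⊆ U := by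
    intro m V hV
    simp only [𝒲, mem_iUnion] at hV
    obtain ⟨k, hk, hV⟩ := hV
    exact hQ1 _ _ _ hV
  have hAW : ∀ m, ∀ p ∈ A m, ∃ V ∈ 𝒲 m, p ∈ V := by
    intro m p hp
    obtain ⟨k, hk, V, hV, hpV⟩ := hH2 _ _ p hp
    refine ⟨V, ?_, hpV⟩
    simp only [𝒲, mem_iUnion]
    exact ⟨k, hk, hV⟩
  refine ⟨{V' | ∃ m, ∃ V ∈ 𝒲 m, V' = V \ ⋃ l ∈ Iio m, A l}, ?_, ?_, ?_, ?_⟩
  · rintro _ ⟨m, V, hV, rfl⟩
    exact (hWo m V hV).1.sdiff ((finite_Iio m).isClosed_biUnion fun l _ => hH1 _ _)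
  · rw [eq_univ_iff_forall]
    intro p
    have hm := Nat.find_spec (hAc p)
    have hm' : ∀ l < Nat.find (hAc p), p ∉ A l := fun l hl => Nat.find_min (hAc p) hl
    obtain ⟨V, hV, hpV⟩ := hAW _ p hm
    refine ⟨_, ⟨_, V, hV, rfl⟩, hpV, ?_⟩
    simp only [mem_iUnion, not_exists]
    exact fun l hl => hm' l hl
  · rintro _ ⟨m, V, hV, rfl⟩
    obtain ⟨-, U, hU, hVU⟩ := hWo m V hV
    exact ⟨U, hU, sdiff_subset.trans hVU⟩
  · intro p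
    obtain ⟨m, hm⟩ := hAc p
    have h1 := (finite_Iic m).biUnion
      (t := fun k => (fun V => V \ ⋃ l ∈ Iio k, A l) '' {V | V ∈ 𝒲 k ∧ p ∈ V})
      (fun k _ => (hWf k p).image _)
    refine h1.subset ?_
    rintro _ ⟨⟨k, V, hV, rfl⟩, hpV, hpA⟩
    simp only [mem_iUnion]
    refine ⟨k, ?_, V, ⟨hV, hpV⟩, rfl⟩
    by_contra hcon
    have hlt : m < k := not_le.1 hcon
    apply hpA
    simp only [mem_iUnion]
    exact ⟨m, hlt, hm⟩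

end Main

end Pool.Agent.H865R2.MetaProd
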