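import Pool.Agent.Helper185.Man4

set_option autoImplicit false

/-!
# A quasi-developable, non-developable surface with a `G_δ`-diagonal
-/

namespace Pool.Agent.H865R2.PsiMan

open Set Topology Relation
open Pool.Agent.Helper185.Man

/-- Injective sequences of reals with a fixed rate of convergence. -/
def Good (s : ℕ → ℝ) : Prop :=
  Function.Injective s ∧ ∀ n k l : ℕ, n ≤ k → n ≤ l → |s k - s l| ≤ 1 / ((n : ℝ) + 1)

/-- There is a maximal almost disjoint family of good sequences. -/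
theorem exists_mad : ∃ M : Set (ℕ → ℝ), (∀ s ∈ M, Good s) ∧
    (∀ s ∈ M, ∀ s' ∈ M, s ≠ s' → (range s ∩ range s').Finite) ∧
    ∀ s, Good s → ∃ s' ∈ M, (range s ∩ range s').Infinite := by
  let 𝒮 : Set (Set (ℕ → ℝ)) := {A | (∀ s ∈ A, Good s) ∧
    ∀ s ∈ A, ∀ s' ∈ A, s ≠ s' → (range s ∩ range s').Finite}
  obtain ⟨M, hM⟩ := zorn_subset 𝒮 (by
    intro c hc hchain
    refine ⟨⋃₀ c, ⟨?_, ?_⟩, fun s hs => subset_sUnion_of_mem hs⟩
    · rintro s ⟨A, hA, hs⟩
      exact (hc hA).1 s hs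
    · rintro s ⟨A, hA, hs⟩ s' ⟨B, hB, hs'⟩ hne
      rcases hchain.total hA hB with h | h
      · exact (hc hB).2 s (h hs) s' hs' hne
      · exact (hc hA).2 s hs s' (h hs') hne)
  refine ⟨M, hM.prop.1, hM.prop.2, ?_⟩
  intro s hs
  by_contra hcon
  push Not at hcon
  have hfin : ∀ s' ∈ M, (range s ∩ range s').Finite := fun s' hs' =>
    hcon s' hs'
  have hmem : s ∈ M := by
    have h1 : insert s M ∈ 𝒮 := by
      refine ⟨?_, ?_⟩
      · rintro t (rfl | ht)
        · exact hs
        · exact hM.prop.1 t ht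
      · rintro t (rfl | ht) t' (rfl | ht') hne
        · exact absurd rfl hne
        · exact hfin t' ht'
        · rw [inter_comm]
          exact hfin t ht
        · exact hM.prop.2 t ht t' ht' hne
    exact hM.le_of_ge h1 (subset_insert s M) (mem_insert s M)
  have h2 := hfin s hmem
  rw [inter_self] at h2
  exact (infinite_range_of_injective hs.1) h2

/-- An uncountable set of reals contains a good sequence. -/
theorem exists_good {E : Set ℝ} (hE : ¬ E.Countable) : ∃ s, Good s ∧ ∀ n, s n ∈ E := by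
  -- a bounded infinite part
  have h1 : ∃ n : ℕ, (E ∩ Icc (-(n : ℝ)) n).Infinite := by
    by_contra hcon
    push Not at hcon
    apply hE
    have h2 : E ⊆ ⋃ n : ℕ, (E ∩ Icc (-(n : ℝ)) n) := by
      intro x hx
      obtain ⟨n, hn⟩ := exists_nat_ge |x|
      exact mem_iUnion.2 ⟨n, hx, abs_le.1 hn⟩
    refine (countable_iUnion fun n => ?_).mono h2
    exact (hcon n).countable
  obtain ⟨n, hn⟩ := h1
  obtain ⟨p, -, hp⟩ := hn.exists_accPt_of_subset_isCompact (isCompact_Icc)
    (inter_subset_right)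
  have hp' : ∀ ε > 0, ∃ y ∈ E, y ≠ p ∧ |y - p| < ε := by
    intro ε hε
    rw [accPt_iff_nhds] at hp
    obtain ⟨y, ⟨hy1, hy2⟩, hy3⟩ := hp (Metric.ball p ε) (Metric.ball_mem_nhds p hε)
    exact ⟨y, hy2.1, hy3, by rw [← Real.dist_eq]; exact hy1⟩
  choose! f hf1 hf2 hf3 using hp'
  have hpos : ∀ ε > 0, 0 < |f ε - p| := fun ε hε => abs_pos.2 (sub_ne_zero.2 (hf2 ε hε))
  let St := {y : ℝ // y ∈ E ∧ y ≠ p}
  let δ : ℕ → St → ℝ := fun k y => min |y.1 - p| (1 / (2 * ((k : ℝ) + 2)))
  have hδ : ∀ k y, 0 < δ k y := fun k y =>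
    lt_min (abs_pos.2 (sub_ne_zero.2 y.2.2)) (by positivity)
  let g : ℕ → St := fun k => Nat.rec (motive := fun _ => St)
    ⟨f (1 / 2), hf1 _ (by norm_num), hf2 _ (by norm_num)⟩
    (fun k y => ⟨f (δ k y), hf1 _ (hδ k y), hf2 _ (hδ k y)⟩) k
  have hg0 : (g 0).1 = f (1 / 2) := rfl
  have hgS : ∀ k, (g (k + 1)).1 = f (δ k (g k)) := fun _ => rfl
  have hlt : ∀ k, |(g (k + 1)).1 - p| < |(g k).1 - p| := by
    intro k
    rw [hgS]
    exact (hf3 _ (hδ k _)).trans_le (min_le_left _ _)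
  have hanti : StrictAnti fun k => |(g k).1 - p| := strictAnti_nat_of_succ_lt hlt
  have hb : ∀ k : ℕ, |(g k).1 - p| < 1 / (2 * ((k : ℝ) + 1)) := by
    intro k
    cases k with
    | zero =>
      rw [hg0]
      have := hf3 (1 / 2) (by norm_num)
      simpa using this
    | succ k =>
      rw [hgS]
      refine ((hf3 _ (hδ k _)).trans_le (min_le_right _ _)).trans_le ?_
      push_cast
      have : (k : ℝ) + 2 = k + 1 + 1 := by ring
      rw [this]
  refine ⟨fun k => (g k).1, ⟨?_, ?_⟩, fun k => (g k).2.1⟩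
  · intro k l hkl
    apply hanti.injective
    simp only at hkl ⊢
    rw [hkl]
  · intro n k l hk hl
    have e1 : |(g k).1 - p| ≤ |(g n).1 - p| := hanti.antitone hk
    have e2 : |(g l).1 - p| ≤ |(g n).1 - p| := hanti.antitone hl
    have e3 := hb n
    have e4 : (g k).1 - (g l).1 = ((g k).1 - p) - ((g l).1 - p) := by ring
    have e5 := abs_sub ((g k).1 - p) ((g l).1 - p)
    rw [← e4] at e5
    have e6 : 1 / ((n : ℝ) + 1) = 1 / (2 * ((n : ℝ) + 1)) + 1 / (2 * ((n : ℝ) + 1)) := by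
      field_simp; ring
    show |(g k).1 - (g l).1| ≤ _
    linarith

section

variable (M : Set (ℕ → ℝ))

/-- points of the system -/
abbrev PX : Type := ℝ ⊕ M

/-- nodes of the system -/
abbrev PN : Type := PX M × ℕ

variable {M}

/-- children -/
def Ch (ν ν' : PN M) : Prop :=
  ν'.2 = ν.2 + 1 ∧ (ν'.1 = ν.1 ∨ ∃ s : M, ν.1 = Sum.inr s ∧ ν'.1 = Sum.inl (s.1 ν.2))

/-- membership -/
def Mm (z : PX M) (ν : PN M) : Prop :=
  z = ν.1 ∨ ∃ (s : M) (k : ℕ), ν.1 = Sum.inr s ∧ ν.2 ≤ k ∧ z = Sum.inl (s.1 k)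

theorem Mm_up {z : PX M} {ν ν' : PN M} (h : Ch ν ν') (hz : Mm z ν') : Mm z ν := by
  obtain ⟨x, n⟩ := ν
  obtain ⟨x', n'⟩ := ν'
  obtain ⟨h1, h2⟩ := h
  simp only at h1 h2
  subst h1
  rcases h2 with rfl | ⟨s, rfl, rfl⟩
  · rcases hz with rfl | ⟨s, k, h3, h4, rfl⟩
    · exact Or.inl rfl
    · exact Or.inr ⟨s, k, h3, by simp only at h4 ⊢; omega, rfl⟩
  · rcases hz with rfl | ⟨s', k, h3, -, -⟩
    · exact Or.inr ⟨s, n, rfl, le_rfl, rfl⟩
    · simp at h3

theorem Mm_up' {z : PX M} {ν ν' : PN M} (h : ReflTransGen Ch ν ν') (hz : Mm z ν') : Mm z ν := by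
  induction h with
  | refl => exact hz
  | tail _ h2 ih => exact ih (Mm_up h2 hz)

theorem Mm_self (z : PX M) (n : ℕ) : Mm z ((z, n) : PN M) := Or.inl rfl

theorem stay (z : PX M) {m n : ℕ} (h : m ≤ n) : ReflTransGen Ch ((z, m) : PN M) (z, n) := by
  induction n, h using Nat.le_induction with
  | base => exact ReflTransGen.refl
  | succ n _ ih => exact ih.tail ⟨rfl, Or.inl rfl⟩

/-- a node reaches all small nodes of each of its points -/
theorem reach_pt {z : PX M} {ν : PN M} (h : Mm z ν) :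
    ∃ n, ∀ j, n ≤ j → ReflTransGen Ch ν (z, j) := by
  obtain ⟨x, n⟩ := ν
  rcases h with rfl | ⟨s, k, h1, h2, rfl⟩
  · exact ⟨n, fun j hj => stay _ hj⟩
  · simp only at h1 h2
    subst h1
    refine ⟨k + 1, fun j hj => ?_⟩
    have e1 : ReflTransGen Ch ((Sum.inr s, n) : PN M) (Sum.inr s, k) := stay _ h2
    have e2 : Ch ((Sum.inr s, k) : PN M) (Sum.inl (s.1 k), k + 1) := ⟨rfl, Or.inr ⟨s, rfl, rfl⟩⟩
    exact (e1.tail e2).trans (stay _ hj)

theorem desc_inl {r : ℝ} {n : ℕ} {κ : PN M} (h : ReflTransGen Ch ((Sum.inl r, n) : PN M) κ) :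
    κ.1 = Sum.inl r := by
  induction h with
  | refl => rfl
  | tail _ h2 ih =>
    rcases h2.2 with h3 | ⟨s, h3, -⟩
    · rw [h3, ih]
    · rw [ih] at h3
      cases h3

/-- the maximal almost disjoint family gives a descending system -/
def sys (hM1 : ∀ s ∈ M, Good s) (hM2 : ∀ s ∈ M, ∀ s' ∈ M, s ≠ s' → (range s ∩ range s').Finite) :
    Sys where
  N := PN M
  X := PX M
  C := Ch
  g := fun ν => ν.2
  mem := Mm
  C_fin := by
    rintro ⟨x, n⟩
    rcases x with r | s
    · refine (finite_singleton ((Sum.inl r, n + 1) : PN M)).subset ?_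
      rintro ⟨x', n'⟩ ⟨h1, h2⟩
      simp only at h1 h2
      subst h1
      rcases h2 with rfl | ⟨s, h3, -⟩
      · rfl
      · cases h3
    · refine ((finite_singleton ((Sum.inl (s.1 n), n + 1) : PN M)).insert
        (Sum.inr s, n + 1)).subset ?_
      rintro ⟨x', n'⟩ ⟨h1, h2⟩
      simp only at h1 h2
      subst h1
      rcases h2 with rfl | ⟨s', h3, h4⟩
      · exact Or.inl rfl
      · obtain rfl := Sum.inr_injective h3
        subst h4
        exact Or.inr rfl
  C_g := by
    rintro ν ν' ⟨h, -⟩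
    show ν.2 < ν'.2
    omega
  mem_up := fun z ν ν' h hz => Mm_up h hz
  mem_down := by
    rintro z ⟨x, n⟩ h
    rcases h with rfl | ⟨s, k, h1, h2, rfl⟩
    · exact ⟨(z, n + 1), ⟨rfl, Or.inl rfl⟩, Or.inl rfl⟩
    · simp only at h1 h2
      subst h1
      rcases Nat.eq_or_lt_of_le h2 with rfl | h3
      · exact ⟨(Sum.inl (s.1 n), n + 1), ⟨rfl, Or.inr ⟨s, rfl, rfl⟩⟩, Or.inl rfl⟩
      · exact ⟨(Sum.inr s, n + 1), ⟨rfl, Or.inl rfl⟩, Or.inr ⟨s, k, rfl, h3, rfl⟩⟩
  mem_ex := fun z => ⟨(z, 0), Or.inl rfl⟩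
  disj := by
    have key : ∀ (s : M) (n : ℕ) (κ : PN M), ReflTransGen Ch ((Sum.inr s, n + 1) : PN M) κ →
        ReflTransGen Ch ((Sum.inl (s.1 n), n + 1) : PN M) κ → False := by
      intro s n κ h1 h2
      have h3 := desc_inl h2
      have h4 : Mm (Sum.inl (s.1 n)) κ := Or.inl h3.symm
      rcases Mm_up' h1 h4 with h5 | ⟨s', k, h5, h6, h7⟩
      · cases h5
      · simp only at h5 h6
        obtain rfl := Sum.inr_injective h5
        have h8 := (hM1 s.1 s.2).1 (Sum.inl_injective h7)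
        omega
    rintro ⟨x, n⟩ ⟨a, na⟩ ⟨b, nb⟩ ⟨ha1, ha2⟩ ⟨hb1, hb2⟩ hne κ h1 h2
    simp only at ha1 ha2 hb1 hb2
    subst ha1 hb1
    rcases ha2 with rfl | ⟨s, rfl, rfl⟩
    · rcases hb2 with rfl | ⟨s, rfl, rfl⟩
      · exact hne rfl
      · exact key s n κ h1 h2
    · rcases hb2 with rfl | ⟨s', h3, rfl⟩
      · exact key s n κ h2 h1
      · obtain rfl := Sum.inr_injective h3
        exact hne rfl
  disjX := by
    have key : ∀ (z : PX M) (s : M) (n : ℕ), Mm z ((Sum.inr s, n + 1) : PN M) →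
        Mm z ((Sum.inl (s.1 n), n + 1) : PN M) → False := by
      intro z s n h1 h2
      rcases h2 with h2 | ⟨s', k, h3, -, -⟩
      · subst h2
        rcases h1 with h1 | ⟨s', k, h5, h6, h7⟩
        · cases h1
        · simp only at h5 h6
          obtain rfl := Sum.inr_injective h5
          have h8 := (hM1 s.1 s.2).1 (Sum.inl_injective h7)
          omega
      · cases h3
    rintro z ⟨x, n⟩ ⟨a, na⟩ ⟨b, nb⟩ ⟨ha1, ha2⟩ ⟨hb1, hb2⟩ h1 h2
    simp only at ha1 ha2 hb1 hb2
    subst ha1 hb1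
    rcases ha2 with rfl | ⟨s, rfl, rfl⟩
    · rcases hb2 with rfl | ⟨s, rfl, rfl⟩
      · rfl
      · exact (key z s n h1 h2).elim
    · rcases hb2 with rfl | ⟨s', h3, rfl⟩
      · exact (key z s n h2 h1).elim
      · obtain rfl := Sum.inr_injective h3
        rfl
  limit := by
    intro f hf
    have hr : ∀ m k, ReflTransGen Ch (f m) (f (m + k)) := by
      intro m k
      induction k with
      | zero => exact ReflTransGen.refl
      | succ k ih => exact ih.tail (hf (m + k))
    by_cases h : ∃ n r, (f n).1 = Sum.inl r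
    · obtain ⟨n, r, hn⟩ := h
      refine ⟨Sum.inl r, fun m => ?_⟩
      have h1 : (f (m + n)).1 = Sum.inl r := by
        have h2 := hr n m
        have h3 : f n = (Sum.inl r, (f n).2) := Prod.ext hn rfl
        rw [h3, Nat.add_comm] at h2
        exact desc_inl h2
      exact Mm_up' (hr m n) (Or.inl h1.symm)
    · push Not at h
      have h1 : ∀ n, (f (n + 1)).1 = (f n).1 := by
        intro n
        rcases (hf n).2 with h2 | ⟨s, -, h3⟩
        · exact h2
        · exact absurd h3 (h (n + 1) _)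
      have h2 : ∀ n, (f n).1 = (f 0).1 := by
        intro n
        induction n with
        | zero => rfl
        | succ n ih => rw [h1, ih]
      exact ⟨(f 0).1, fun n => Or.inl (h2 n).symm⟩
  merge := by
    intro z ν μ h1 h2
    obtain ⟨n, hn⟩ := reach_pt h1
    obtain ⟨m, hm⟩ := reach_pt h2
    exact ⟨(z, max n m), hn _ (le_max_left _ _), hm _ (le_max_right _ _), Or.inl rfl⟩
  sep := by
    rintro z ν ⟨x, m⟩ h1 h2
    obtain ⟨n, hn⟩ := reach_pt h1
    rcases z with r | s
    · refine ⟨(Sum.inl r, n), hn n le_rfl, Or.inl rfl, fun τ h3 h4 => ?_⟩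
      have h5 := desc_inl h3
      exact h2 (Mm_up' h4 (Or.inl h5.symm))
    · -- a bound for the common points
      have hb : ∃ K, ∀ k, K ≤ k → ¬ Mm (Sum.inl (s.1 k)) ((x, m) : PN M) := by
        have hfin : {k | Mm (Sum.inl (s.1 k)) ((x, m) : PN M)}.Finite := by
          rcases x with r | s'
          · have h3 : {k | Mm (Sum.inl (s.1 k)) ((Sum.inl r, m) : PN M)} ⊆ s.1 ⁻¹' {r} := by
              rintro k (h3 | ⟨s', j, h3, -, -⟩)
              · exact Sum.inl_injective h3
              · cases h3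
            exact ((finite_singleton r).preimage (hM1 s.1 s.2).1.injOn).subset h3
          · have hss : s.1 ≠ s'.1 := by
              intro h3
              exact h2 (Or.inl (by rw [Subtype.ext h3]))
            have h3 : {k | Mm (Sum.inl (s.1 k)) ((Sum.inr s', m) : PN M)} ⊆
                s.1 ⁻¹' (range s.1 ∩ range s'.1) := by
              rintro k (h3 | ⟨s'', j, h3, -, h4⟩)
              · cases h3
              · obtain rfl := Sum.inr_injective h3
                exact ⟨⟨k, rfl⟩, ⟨j, (Sum.inl_injective h4).symm⟩⟩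
            exact ((hM2 s.1 s.2 s'.1 s'.2 hss).preimage (hM1 s.1 s.2).1.injOn).subset h3
        obtain ⟨K, hK⟩ := hfin.bddAbove
        refine ⟨K + 1, fun k hk hcon => ?_⟩
        have := hK hcon
        omega
      obtain ⟨K, hK⟩ := hb
      refine ⟨(Sum.inr s, max n K), hn _ (le_max_left _ _), Or.inl rfl, fun τ h3 h4 => ?_⟩
      have h5 : Mm τ.1 ((Sum.inr s, max n K) : PN M) := Mm_up' h3 (Or.inl rfl)
      have h6 : Mm τ.1 ((x, m) : PN M) := Mm_up' h4 (Or.inl rfl)
      rcases h5 with h5 | ⟨s', k, h7, h8, h9⟩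
      · simp only at h5
        rw [h5] at h6
        exact h2 h6
      · simp only at h7 h8
        obtain rfl := Sum.inr_injective h7
        rw [h9] at h6
        exact hK k ((le_max_right _ _).trans h8) h6
  bdd := by
    intro z z' hne
    -- there is a uniform bound depending on the pair
    rcases z with r | s
    · rcases z' with r' | s'
      · have hrr : r ≠ r' := fun h => hne (by rw [h])
        obtain ⟨n, hn⟩ := exists_nat_gt (1 / |r - r'|)
        have hpos : 0 < |r - r'| := abs_pos.2 (sub_ne_zero.2 hrr)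
        refine ⟨n, ?_⟩
        rintro ⟨x, m⟩ h1 h2
        by_contra hcon
        simp only [not_le] at hcon
        rcases h1 with h1 | ⟨s, k, h3, h4, h5⟩
        · rcases h2 with h2 | ⟨s', k', h3', h4', h5'⟩
          · exact hne (h1.trans h2.symm)
          · simp only at h1 h3'
            rw [← h1] at h3'
            cases h3'
        · rcases h2 with h2 | ⟨s', k', h3', h4', h5'⟩
          · simp only at h2 h3
            rw [← h2] at h3
            cases h3
          · simp only at h3 h3' h4 h4'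
            rw [h3] at h3'
            obtain rfl := Sum.inr_injective h3'
            have e1 := Sum.inl_injective h5
            have e2 := Sum.inl_injective h5'
            have e3 := (hM1 s.1 s.2).2 m k k' h4 h4'
            rw [← e1, ← e2] at e3
            have e4 : (n : ℝ) < (m : ℝ) := by exact_mod_cast hcon
            have e5 : 1 / |r - r'| < (m : ℝ) + 1 := by linarith
            rw [div_lt_iff₀ hpos] at e5
            rw [le_div_iff₀ (by positivity)] at e3
            linarith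
      · -- `s'` and `r`
        have hfin : {k | s'.1 k = r}.Finite := by
          have h3 : {k | s'.1 k = r} ⊆ s'.1 ⁻¹' {r} := fun k hk => hk
          exact ((finite_singleton r).preimage (hM1 s'.1 s'.2).1.injOn).subset h3
        obtain ⟨K, hK⟩ := hfin.bddAbove
        refine ⟨K, ?_⟩
        rintro ⟨x, m⟩ h1 h2
        rcases h2 with h2 | ⟨s'', k', -, -, h5'⟩
        · simp only at h2
          subst h2
          rcases h1 with h1 | ⟨s, k, h3, h4, h5⟩
          · cases h1
          · simp only at h3 h4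
            obtain rfl := Sum.inr_injective h3
            exact h4.trans (hK (Sum.inl_injective h5).symm)
        · cases h5'
    · rcases z' with r' | s'
      · have hfin : {k | s.1 k = r'}.Finite := by
          have h3 : {k | s.1 k = r'} ⊆ s.1 ⁻¹' {r'} := fun k hk => hk
          exact ((finite_singleton r').preimage (hM1 s.1 s.2).1.injOn).subset h3
        obtain ⟨K, hK⟩ := hfin.bddAbove
        refine ⟨K, ?_⟩
        rintro ⟨x, m⟩ h2 h1
        rcases h2 with h2 | ⟨s'', k', -, -, h5'⟩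
        · simp only at h2
          subst h2
          rcases h1 with h1 | ⟨s, k, h3, h4, h5⟩
          · cases h1
          · simp only at h3 h4
            obtain rfl := Sum.inr_injective h3
            exact h4.trans (hK (Sum.inl_injective h5).symm)
        · cases h5'
      · refine ⟨0, ?_⟩
        rintro ⟨x, m⟩ h1 h2
        rcases h1 with h1 | ⟨s'', k', -, -, h5'⟩
        · rcases h2 with h2 | ⟨s'', k', -, -, h5'⟩
          · exact absurd (h1.trans h2.symm) hne
          · cases h5'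
        · cases h5'


/-- quasi-developable, as in the frozen statement -/
def QDev (X : Type) [TopologicalSpace X] : Prop :=
  ∃ G : ℕ → Set (Set X),
        (∀ k, ∀ V ∈ G k, IsOpen V) ∧
        ∀ x : X, ∀ U : Set X, IsOpen U → x ∈ U →
          ∃ k, (∃ V ∈ G k, x ∈ V) ∧ ∀ V ∈ G k, x ∈ V → V ⊆ U

/-- developable -/
def Dev (X : Type) [TopologicalSpace X] : Prop :=
  ∃ G : ℕ → Set (Set X),
        (∀ k, ∀ V ∈ G k, IsOpen V) ∧
        (∀ k, ⋃₀ G k = Set.univ) ∧
        ∀ x : X, ∀ U : Set X, IsOpen U → x ∈ U →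
          ∃ k, ∀ V ∈ G k, x ∈ V → V ⊆ U

variable (hM1 : ∀ s ∈ M, Good s)
  (hM2 : ∀ s ∈ M, ∀ s' ∈ M, s ≠ s' → (range s ∩ range s').Finite)

theorem g_eq {S : Sys} {a b : S.N} (h : ReflTransGen S.C a b) (hg : S.g b ≤ S.g a) : a = b := by
  rcases h.cases_head with h | ⟨d, h1, h2⟩
  · exact h
  · have h3 := S.C_g _ _ h1
    have h4 := g_le h2
    omega

theorem not_dev (hM3 : ∀ s, Good s → ∃ s' ∈ M, (range s ∩ range s').Infinite)
    (r : (sys hM1 hM2).N → ℝ) : ¬ Dev (Mf (sys hM1 hM2) r) := by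
  rintro ⟨G, hGo, hGc, hG⟩
  let S := sys hM1 hM2
  have hmem : ∀ (y y' : ℝ) (n : ℕ), pt (S := S) r (Sum.inl y' : PX M) 0 ∈ D S r (Sum.inl y, n) →
      y' = y := by
    intro y y' n h
    rcases (pt_mem_D (S := S)).1 h with h1 | ⟨s, k, h1, -, -⟩
    · exact Sum.inl_injective h1
    · cases h1
  have h1 : ∀ y : ℝ, ∃ n, ∀ V ∈ G n, pt (S := S) r (Sum.inl y : PX M) 0 ∈ V →
      V ⊆ D S r (Sum.inl y, 0) := by
    intro y
    exact hG _ _ (isOpen_D _) ((pt_mem_D (S := S)).2 (Or.inl rfl))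
  choose n hn using h1
  have h2 : ∃ m, ¬ {y | n y = m}.Countable := by
    by_contra hcon
    push Not at hcon
    apply Cardinal.not_countable_real
    have : (univ : Set ℝ) = ⋃ m, {y | n y = m} := by
      ext y
      simp
    rw [this]
    exact countable_iUnion hcon
  obtain ⟨m, hm⟩ := h2
  obtain ⟨s, hs, hsE⟩ := exists_good hm
  obtain ⟨t, ht, hst⟩ := hM3 s hs
  obtain ⟨V, hV, hxV⟩ : ∃ V ∈ G m, pt (S := S) r (Sum.inr ⟨t, ht⟩ : PX M) 0 ∈ V := by
    have : pt (S := S) r (Sum.inr ⟨t, ht⟩ : PX M) 0 ∈ ⋃₀ G m := by rw [hGc]; trivial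
    exact this
  obtain ⟨κ, h3, h4, h5⟩ := pt_nhds (S := S) (hGo m V hV) hxV (ν := (Sum.inr ⟨t, ht⟩, 0))
    (Or.inl rfl)
  -- `κ` is a node of `t`
  have hκ : κ.1 = Sum.inr ⟨t, ht⟩ := by
    rcases h4 with h4 | ⟨s', k, -, -, h7⟩
    · exact h4.symm
    · cases h7
  have hin : ∀ k, κ.2 ≤ k → pt (S := S) r (Sum.inl (t k) : PX M) 0 ∈ V := fun k hk =>
    h5 _ (Or.inr ⟨⟨t, ht⟩, k, hκ, hk, rfl⟩)
  -- two members of the sequence in the set
  have hinf : (t ⁻¹' {y | n y = m}).Infinite := by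
    have h6 : (range s ∩ range t) ⊆ t '' (t ⁻¹' {y | n y = m}) := by
      rintro _ ⟨⟨i, rfl⟩, ⟨j, hj⟩⟩
      exact ⟨j, by rw [mem_preimage, hj]; exact hsE i, hj⟩
    intro hfin
    exact hst ((hfin.image t).subset h6)
  obtain ⟨k, hk, hkκ⟩ := hinf.exists_gt κ.2
  obtain ⟨l, hl, hlk⟩ := hinf.exists_gt k
  have h6 : n (t k) = m := hk
  have h7 : V ⊆ D S r (Sum.inl (t k), 0) := by
    have := hn (t k)
    rw [h6] at this
    exact this V hV (hin k hkκ.le)
  have h8 := hmem _ _ _ (h7 (hin l (hkκ.trans hlk).le))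
  have h9 := (hM1 t ht).1 h8
  omega

theorem basis_chart {S : Sys} {r : S.N → ℝ} (ν : S.N) (p : ℝ × ℝ) {U : Set (Mf S r)}
    (hU : IsOpen U) (h : chart S r ν p ∈ U) :
    ∃ B ∈ TopologicalSpace.countableBasis (ℝ × ℝ), p ∈ B ∧ chart S r ν '' B ⊆ U := by
  have h1 : IsOpen (chart S r ν ⁻¹' U) := hU.preimage (isOpenEmbedding_chart ν).continuous
  obtain ⟨B, hB, hp, hBU⟩ := (TopologicalSpace.isBasis_countableBasis (ℝ × ℝ)).exists_subset_of_mem_open
    (show p ∈ chart S r ν ⁻¹' U from h) h1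
  exact ⟨B, hB, hp, image_subset_iff.2 hBU⟩

theorem qdev (r : (sys hM1 hM2).N → ℝ) : QDev (Mf (sys hM1 hM2) r) := by
  classical
  let S := sys hM1 hM2
  let J : Type := (ℕ ⊕ Bool) × TopologicalSpace.countableBasis (ℝ × ℝ)
  have hJ : Countable (TopologicalSpace.countableBasis (ℝ × ℝ)) :=
    (TopologicalSpace.countable_countableBasis (ℝ × ℝ)).to_subtype
  have hJ' : Countable J := inferInstance
  let _ : Encodable J := Encodable.ofCountable J
  let GJ : J → Set (Set (Mf S r)) := fun j => match j with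
    | (Sum.inl n, B) => {V | ∃ ν : PN M, ν.2 = n ∧ V = chart S r ν '' B.1}
    | (Sum.inr false, B) => {V | ∃ y : ℝ, V = chart S r (Sum.inl y, 0) '' B.1}
    | (Sum.inr true, B) => {V | ∃ s : M, V = chart S r (Sum.inr s, 0) '' B.1}
  have hGJ : ∀ j, ∀ V ∈ GJ j, IsOpen V := by
    rintro ⟨n | b, B⟩ V hV
    · obtain ⟨ν, -, rfl⟩ := hV
      exact (isOpenEmbedding_chart (S := S) (r := r) ν).isOpenMap _
        (TopologicalSpace.isOpen_of_mem_countableBasis B.2)
    · cases b with
      | false =>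
        obtain ⟨y, rfl⟩ := hV
        exact (isOpenEmbedding_chart _).isOpenMap _
          (TopologicalSpace.isOpen_of_mem_countableBasis B.2)
      | true =>
        obtain ⟨y, rfl⟩ := hV
        exact (isOpenEmbedding_chart _).isOpenMap _
          (TopologicalSpace.isOpen_of_mem_countableBasis B.2)
  let G : ℕ → Set (Set (Mf S r)) := fun k => match (Encodable.decode k : Option J) with
    | none => ∅
    | some j => GJ j
  have hG : ∀ j, G (Encodable.encode j) = GJ j := by
    intro j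
    simp only [G, Encodable.encodek]
  refine ⟨G, ?_, ?_⟩
  · intro k V hV
    simp only [G] at hV
    cases h : (Encodable.decode k : Option J) with
    | none => rw [h] at hV; exact absurd hV (notMem_empty V)
    | some j => rw [h] at hV; exact hGJ j V hV
  · intro m U hU hm
    suffices h : ∃ j, (∃ V ∈ GJ j, m ∈ V) ∧ ∀ V ∈ GJ j, m ∈ V → V ⊆ U by
      obtain ⟨j, hj⟩ := h
      rw [← hG j] at hj
      exact ⟨_, hj⟩
    rcases term_or_pt m with ⟨a, ha, rfl⟩ | ⟨x, t, rfl⟩
    · obtain ⟨B, hB, hp, hBU⟩ := basis_chart (S := S) a.1 a.2 hU hm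
      refine ⟨(Sum.inl a.1.2, ⟨B, hB⟩), ⟨_, ⟨a.1, rfl, rfl⟩, a.2, hp, rfl⟩, ?_⟩
      rintro V ⟨ν, hν, rfl⟩ ⟨p, hpB, hpm⟩
      have h1 : ReflTransGen S.C ν a.1 := term_D ha ⟨p, hpm⟩
      have h2 : ν = a.1 := g_eq h1 (le_of_eq hν.symm)
      rw [h2]
      exact hBU
    · rcases x with y | s
      · have h0 : pt r (Sum.inl y : PX M) t =
            chart S r (Sum.inl y, 0) (crd S (Sum.inl y : PX M) (Sum.inl y, 0), t) :=
          pt_eq (S := S) (x := (Sum.inl y : PX M)) (ν := (Sum.inl y, 0)) (Or.inl rfl) t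
        obtain ⟨B, hB, hp, hBU⟩ := basis_chart (S := S) (Sum.inl y, 0)
          (crd S (Sum.inl y : PX M) (Sum.inl y, 0), t) hU (by rw [← h0]; exact hm)
        refine ⟨(Sum.inr false, ⟨B, hB⟩), ⟨_, ⟨y, rfl⟩, _, hp, h0.symm⟩, ?_⟩
        rintro V ⟨y', rfl⟩ ⟨p, hpB, hpm⟩
        have h1 : Mm (Sum.inl y : PX M) (Sum.inl y', 0) := (pt_mem_D (S := S)).1 ⟨p, hpm⟩
        have h2 : y = y' := by
          rcases h1 with h1 | ⟨s, k, h1, -, -⟩
          · exact Sum.inl_injective h1
          · cases h1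
        rw [← h2]
        exact hBU
      · have h0 : pt r (Sum.inr s : PX M) t =
            chart S r (Sum.inr s, 0) (crd S (Sum.inr s : PX M) (Sum.inr s, 0), t) :=
          pt_eq (S := S) (x := (Sum.inr s : PX M)) (ν := (Sum.inr s, 0)) (Or.inl rfl) t
        obtain ⟨B, hB, hp, hBU⟩ := basis_chart (S := S) (Sum.inr s, 0)
          (crd S (Sum.inr s : PX M) (Sum.inr s, 0), t) hU (by rw [← h0]; exact hm)
        refine ⟨(Sum.inr true, ⟨B, hB⟩), ⟨_, ⟨s, rfl⟩, _, hp, h0.symm⟩, ?_⟩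
        rintro V ⟨s', rfl⟩ ⟨p, hpB, hpm⟩
        have h1 : Mm (Sum.inr s : PX M) (Sum.inr s', 0) := (pt_mem_D (S := S)).1 ⟨p, hpm⟩
        have h2 : s = s' := by
          rcases h1 with h1 | ⟨s'', k, -, -, h3⟩
          · exact Sum.inr_injective h1
          · cases h3
        rw [← h2]
        exact hBU

theorem exists_r : Nonempty ((sys hM1 hM2).N ↪ ℝ) := by
  rw [← Cardinal.le_def, Cardinal.mk_real]
  have h1 : Cardinal.mk M ≤ Cardinal.continuum := by
    refine (Cardinal.mk_set_le M).trans ?_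
    rw [← Cardinal.power_def, Cardinal.mk_nat, Cardinal.mk_real]
    simp
  show Cardinal.mk ((ℝ ⊕ M) × ℕ) ≤ _
  rw [Cardinal.mk_prod, Cardinal.mk_sum]
  simp only [Cardinal.lift_id, Cardinal.mk_real, Cardinal.mk_nat]
  exact Cardinal.mul_le_of_le Cardinal.aleph0_le_continuum
    (Cardinal.add_le_of_le Cardinal.aleph0_le_continuum le_rfl h1) Cardinal.aleph0_le_continuum

/-- The charted space structure given by the charts of the nodes. -/
@[reducible] noncomputable def charted (S : Sys) (r : S.N → ℝ) :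
    ChartedSpace (EuclideanSpace ℝ (Fin 2)) (Mf S r) := by
  classical
  let e : EuclideanSpace ℝ (Fin 2) ≃ₜ ℝ × ℝ :=
    ((EuclideanSpace.equiv (Fin 2) ℝ).toHomeomorph).trans (Homeomorph.finTwoArrow (X := ℝ))
  have he : ∀ ν : S.N, IsOpenEmbedding (chart S r ν ∘ e) := fun ν =>
    (isOpenEmbedding_chart ν).comp e.isOpenEmbedding
  let c : S.N → OpenPartialHomeomorph (Mf S r) (EuclideanSpace ℝ (Fin 2)) := fun ν =>
    ((he ν).toOpenPartialHomeomorph _).symm
  have hsrc : ∀ ν, (c ν).source = D S r ν := by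
    intro ν
    simp only [c, OpenPartialHomeomorph.symm_source, IsOpenEmbedding.toOpenPartialHomeomorph_target,
      D]
    rw [range_comp, e.surjective.range_eq, image_univ]
  have hcov : ∀ m : Mf S r, ∃ ν, m ∈ D S r ν := by
    intro m
    obtain ⟨a, rfl⟩ := mk_surj m
    exact ⟨a.1, mem_D⟩
  exact
    { atlas := range c
      chartAt := fun m => c (hcov m).choose
      mem_chart_source := fun m => by
        rw [hsrc]
        exact (hcov m).choose_spec
      chart_mem_atlas := fun m => ⟨_, rfl⟩ }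

end

/-- The surface. -/
theorem exists_surface :
    ∃ (X : Type) (_ : TopologicalSpace X) (_ : T2Space X) (n : ℕ)
      (_ : ChartedSpace (EuclideanSpace ℝ (Fin n)) X),
      IsGδ (Set.diagonal X) ∧ QDev X ∧ ¬ Dev X := by
  obtain ⟨M, hM1, hM2, hM3⟩ := exists_mad
  obtain ⟨r⟩ := exists_r hM1 hM2
  exact ⟨Mf (sys hM1 hM2) r, inferInstance, t2 r.injective, 2, charted _ _, isGdelta_diagonal,
    qdev hM1 hM2 r, not_dev hM1 hM2 hM3 r⟩

end Pool.Agent.H865R2.PsiMan
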